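import Pool.Agent.P.MP_75e851_co.R3.Iface

/-! From the vanishing of cycles to rainbow matchings; degree two. -/

set_option autoImplicit false
set_option linter.unusedSectionVars false

namespace Pool.Agent.P.MP_75e851_co.R3

open Finset MvPolynomial Function

/-- maximum degree two -/
theorem ac_two (hRED : S_RED) (hDEAD : S_DEAD) {V : Type} [DecidableEq V] (G : Gr V) :
    ∀ m, Sub3 G → (∀ v, #(st G v) ≤ 2) → 4 * m < #G → Ac G m := by
  induction hn : #G using Nat.strong_induction_on generalizing G with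
  | _ n ih =>
  subst hn
  intro m hG h2 hm z hz h0
  obtain ⟨g, hg⟩ : G.Nonempty := card_pos.1 (by omega)
  rcases m with _ | m
  · refine Ch.le (fun s _ b => ?_) hz
    rw [card_eq_zero.1 b]
    refine mem_Bd.2 ⟨X g * 1, X_mul_mem hg (hG.ne hg) one_mem, by simp⟩
  have sub : ∀ U : Finset V, #(del U G) < #G → 4 * m < #(del U G) → Ac (del U G) m :=
    fun U a b => ih _ a _ rfl m (hG.mono del_sub)
      (fun v => (card_le_card (st_mono del_sub)).trans (h2 v)) b
  have lk : ∀ f ∈ G, pderiv f z ∈ Bd (del f G) m := fun f hf => by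
    refine sub f (card_lt_card ⟨del_sub, fun k => hG.nd hf (mem_del.1 (k hf)).2⟩) ?_ _
      (pd_mem f hz) (by rw [← pd_D, h0, map_zero])
    obtain ⟨a, b, hab, rfl⟩ := card_eq_two.1 (hG.two f hf)
    have h1 := card_del G {a, b}
    have := card_union_le (st G a) (st G b)
    have := h2 a
    have := h2 b
    rw [biUnion_insert, singleton_biUnion] at h1
    omega
  obtain ⟨s, hs⟩ := hG.ne hg
  have s1 : 0 < #(st G s) := card_pos.2 ⟨g, mem_st.2 ⟨hg, hs⟩⟩
  have s2 := h2 s
  by_cases h1 : #(st G s) = 1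
  · obtain ⟨e, he⟩ := card_eq_one.1 h1
    have e1 : e ∈ st G s := he ▸ mem_singleton_self e
    obtain ⟨e2, e3⟩ := mem_st.1 e1
    obtain ⟨t, t1, rfl⟩ := other (hG.two e e2) e3
    obtain ⟨y, y1, y2, y3⟩ := star (F := (st G t).erase {s, t}) (t := t) (erase_subset _ _)
      hz h0 fun f hf => lk f (st_sub (mem_of_mem_erase hf))
    refine Bd.of_add y3 (Bd.mono sdiff_subset (cone (f := {s, t}) (by simp [e2]) (by simp)
      (fun g hg hn => ?_) y y1 y2))
    simp only [mem_sdiff, mem_erase, mem_st, not_and] at hg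
    rw [disjoint_insert_left, disjoint_singleton_left]
    exact ⟨fun k => hn (mem_singleton.1 (he ▸ mem_st.2 ⟨hg.1, k⟩)), hg.2 hn hg.1⟩
  obtain ⟨e, f, hef, he⟩ := card_eq_two.1 (show #(st G s) = 2 by omega)
  obtain ⟨e2, e3⟩ := mem_st.1 (show e ∈ st G s by rw [he]; simp)
  obtain ⟨f2, f3⟩ := mem_st.1 (show f ∈ st G s by rw [he]; simp)
  obtain ⟨t, -, rfl⟩ := other (hG.two e e2) e3
  obtain ⟨u, -, rfl⟩ := other (hG.two f f2) f3
  have tw : Two G s t u := ⟨hG, fun k => hef (by rw [k]), he⟩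
  refine hRED V G s t u m z tw hz h0 (fun f hf => lk f (st_sub hf)) fun y y1 y2 =>
    (hDEAD V G s t u m).1 tw y (sub _ (card_lt_card ⟨del_sub, fun k => ?_⟩) ?_ y y1 y2)
  · have := (mem_del.1 (k e2)).2
    simp at this
  · have k1 := card_del G {s, t, u}
    have k2 : ({s, t, u} : Finset V).biUnion (st G) ⊆ st G t ∪ st G u := by
      rw [biUnion_insert, biUnion_insert, singleton_biUnion, he]
      refine union_subset (fun e k => ?_) Subset.rfl
      rcases mem_insert.1 k with l | l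
      · exact l ▸ mem_union_left _ (mem_st.2 ⟨e2, by simp⟩)
      · exact mem_singleton.1 l ▸ mem_union_right _ (mem_st.2 ⟨f2, by simp⟩)
    have := card_le_card k2
    have := card_union_le (st G t) (st G u)
    have := h2 t
    have := h2 u
    omega

section Pairs

variable {A B : Type} [DecidableEq A] [DecidableEq B]

/-- a pair as an edge -/
def ed (e : A × B) : Finset (A ⊕ B) := {Sum.inl e.1, Sum.inr e.2}

theorem ed_inj : Injective (ed : A × B → _) := by
  rintro ⟨a, b⟩ ⟨c, d⟩ h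
  have h1 : Sum.inl a ∈ ed (c, d) := h ▸ (by simp [ed])
  have h2 : Sum.inr b ∈ ed (c, d) := h ▸ (by simp [ed])
  simp only [ed, mem_insert, mem_singleton, Sum.inl.injEq, Sum.inr.injEq, reduceCtorEq,
    or_false, false_or] at h1 h2
  rw [h1, h2]

theorem st_ed {F : Finset (A × B)} {d : ℕ} (h1 : ∀ a, #{e ∈ F | e.1 = a} ≤ d)
    (h2 : ∀ b, #{e ∈ F | e.2 = b} ≤ d) (v : A ⊕ B) : #(st (F.image ed) v) ≤ d := by
  rw [st, filter_image, card_image_of_injective _ ed_inj]
  rcases v with a | b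
  · refine le_trans (card_le_card fun e he => ?_) (h1 a)
    simp only [ed, mem_filter, mem_insert, mem_singleton, Sum.inl.injEq, reduceCtorEq,
      or_false] at he ⊢
    exact ⟨he.1, he.2.symm⟩
  · refine le_trans (card_le_card fun e he => ?_) (h2 b)
    simp only [ed, mem_filter, mem_insert, mem_singleton, Sum.inr.injEq, reduceCtorEq,
      false_or] at he ⊢
    exact ⟨he.1, he.2.symm⟩

theorem rainbow (hHALL : S_HALL) {ι : Type} [Fintype ι] (E : ι → Finset (A × B)) (d k : ℕ)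
    (hd : d ≤ 3) (hk : 0 < k) (hE : ∀ i j, i ≠ j → Disjoint (E i) (E j))
    (h1 : ∀ a, #{e ∈ univ.biUnion E | e.1 = a} ≤ d)
    (h2 : ∀ b, #{e ∈ univ.biUnion E | e.2 = b} ≤ d) (h3 : ∀ i, k ≤ #(E i))
    (hA : ∀ (G : Gr (A ⊕ B)) (m : ℕ), Sub3 G → Bip G → (∀ v, #(st G v) ≤ d) → k * m < #G →
      Ac G m) :
    ∃ f : ι → A × B, (∀ i, f i ∈ E i) ∧ Injective (Prod.fst ∘ f) ∧ Injective (Prod.snd ∘ f) := by
  classical
  have dj : ∀ i j, i ≠ j → Disjoint ((E i).image ed) ((E j).image ed) := fun i j h =>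
    (disjoint_image ed_inj).2 (hE i j h)
  obtain ⟨f, f1, f2⟩ := hHALL (A ⊕ B) ι (fun i => (E i).image ed) dj fun S hS => by
    have sb : S.biUnion (fun i => (E i).image ed) ⊆ (univ.biUnion E).image ed := fun e he => by
      simp only [mem_biUnion, mem_image] at he ⊢
      obtain ⟨i, -, x, hx, rfl⟩ := he
      exact ⟨x, ⟨i, mem_univ _, hx⟩, rfl⟩
    have dg : ∀ v, #(st (S.biUnion fun i => (E i).image ed) v) ≤ d := fun v =>
      (card_le_card (st_mono sb)).trans (st_ed h1 h2 v)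
    refine hA _ _ ⟨fun e he => ?_, fun v => (dg v).trans hd⟩ ⟨Sum.isLeft, fun e he => ?_⟩ dg ?_
    · obtain ⟨x, -, rfl⟩ := mem_image.1 (sb he)
      simp [ed]
    · obtain ⟨x, -, rfl⟩ := mem_image.1 (sb he)
      exact ⟨_, _, rfl, rfl, rfl⟩
    · rw [card_biUnion fun i _ j _ h => dj i j h]
      have := card_nsmul_le_sum S (fun i => #((E i).image ed)) k fun i _ => by
        rw [card_image_of_injective _ ed_inj]; exact h3 i
      obtain ⟨n, hn⟩ : ∃ n, #S = n + 1 := ⟨#S - 1, by have := card_pos.2 hS; omega⟩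
      rw [hn, smul_eq_mul] at this
      rw [hn, Nat.add_sub_cancel]
      nlinarith
  choose g g1 g2 using fun i => mem_image.1 (f1 i)
  refine ⟨g, g1, fun i j h => ?_, fun i j h => ?_⟩
  · by_contra hn
    refine disjoint_left.1 (f2 i j hn) (show Sum.inl (g i).1 ∈ f i by simp [← g2, ed]) ?_
    rw [show (g i).1 = (g j).1 from h]; simp [← g2, ed]
  · by_contra hn
    refine disjoint_left.1 (f2 i j hn) (show Sum.inr (g i).2 ∈ f i by simp [← g2, ed]) ?_
    rw [show (g i).2 = (g j).2 from h]; simp [← g2, ed]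

end Pairs

/-- the statement for simple graphs of maximum degree at most `d` -/
def Q (d : ℕ) : Prop :=
  ∀ (A B ι : Type) [DecidableEq A] [DecidableEq B] [Fintype ι] (E : ι → Finset (A × B)),
    (∀ i j, i ≠ j → Disjoint (E i) (E j)) →
    (∀ a, #{e ∈ univ.biUnion E | e.1 = a} ≤ d) → (∀ b, #{e ∈ univ.biUnion E | e.2 = b} ≤ d) →
    (∀ i, d + 2 ≤ #(E i)) →
    ∃ f : ι → A × B, (∀ i, f i ∈ E i) ∧ Injective (Prod.fst ∘ f) ∧ Injective (Prod.snd ∘ f)

theorem q_low (hHALL : S_HALL) (hA : S_A) (hRED : S_RED) (hDEAD : S_DEAD) {d : ℕ} (hd : d ≤ 3) :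
    Q d := by
  intro A B ι _ _ _ E hE h1 h2 h3
  by_cases k3 : d = 3
  · subst k3
    exact rainbow hHALL E 3 5 le_rfl (by omega) hE h1 h2 h3 fun G m a b _ c => hA _ G m a b c
  by_cases k2 : d = 2
  · subst k2
    exact rainbow hHALL E 2 4 hd (by omega) hE h1 h2 h3 fun G m a _ b c =>
      ac_two hRED hDEAD G m a b c
  choose f hf using fun i => card_pos.1 (show 0 < #(E i) by have := h3 i; omega)
  have hm : ∀ i, f i ∈ univ.biUnion E := fun i => mem_biUnion.2 ⟨i, mem_univ _, hf i⟩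
  have key : ∀ i j, f i = f j → i = j := fun i j h => by
    by_contra hn
    exact disjoint_left.1 (hE i j hn) (hf i) (h ▸ hf j)
  refine ⟨f, hf, fun i j h => key i j ?_, fun i j h => key i j ?_⟩
  · exact card_le_one.1 ((h1 (f j).1).trans (by omega)) _ (mem_filter.2 ⟨hm i, h⟩) _
      (mem_filter.2 ⟨hm j, rfl⟩)
  · exact card_le_one.1 ((h2 (f j).2).trans (by omega)) _ (mem_filter.2 ⟨hm i, h⟩) _
      (mem_filter.2 ⟨hm j, rfl⟩)

end Pool.Agent.P.MP_75e851_co.R3
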