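import Pool.Agent.P.MP_75e851_co.R3.Iface

/-! Step A. -/

set_option autoImplicit false
set_option linter.unusedSectionVars false

namespace Pool.Agent.P.MP_75e851_co.R3

open Finset MvPolynomial

theorem p_A (hDIM : S_DIM) (hT : S_T) (hDEC : S_DEC) (hCUB : S_CUB) (hJOIN : S_JOIN) :
    S_A := by
  intro V _ G
  induction hn : #G using Nat.strong_induction_on generalizing G with
  | _ n ih =>
  subst hn
  intro m hG hb hm
  by_cases hc : Cls G
  · intro z hz h0
    refine hT V G m hc hm.le z (Ch.le (fun M a b => xs_memN a b ?_) hz) h0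
    by_contra k
    have := (hDIM V G M hG a k).1
    omega
  obtain ⟨B, Y, rfl, d1, d2, ⟨f, hf⟩, h⟩ := hDEC V G hG hb hc
  have c1 := card_union_of_disjoint d1
  have c2 := card_pos.2 ⟨f, hf⟩
  exact hJOIN V B Y ((#B + 4) / 5) ((#Y + 4) / 5) m d1 d2
    (fun i hi => hCUB V B f i (hG.mono subset_union_left) hf (h f hf) (by omega))
    (fun j hj => ih _ (by omega) Y rfl j (hG.mono subset_union_right)
      (hb.mono subset_union_right) (by omega)) (by omega)

end Pool.Agent.P.MP_75e851_co.R3
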