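import Pool.Agent.P.MP_75e851_co.R3.Iface

/-! Step BIPC. -/

set_option autoImplicit false
set_option linter.unusedSectionVars false

namespace Pool.Agent.P.MP_75e851_co.R3

open Finset MvPolynomial

namespace BIPCx

theorem cover {V : Type} [DecidableEq V] {G : Gr V} (h : Sub3 G) (W A : Finset V)
    (hA : ∀ e ∈ G, e ⊆ W → ∃ a ∈ A, a ∈ e) : ein G W ≤ 3 * #A := by
  have h1 : G.filter (fun e => e ⊆ W) ⊆ A.biUnion (st G) := by
    intro e he
    obtain ⟨h1, h2⟩ := mem_filter.1 he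
    obtain ⟨a, ha, hae⟩ := hA e h1 h2
    exact mem_biUnion.2 ⟨a, ha, mem_st.2 ⟨h1, hae⟩⟩
  have h2 := card_le_card h1
  have h3 : #(A.biUnion (st G)) ≤ ∑ a ∈ A, #(st G a) := card_biUnion_le
  have h4 : ∑ a ∈ A, #(st G a) ≤ ∑ _a ∈ A, 3 := sum_le_sum fun a _ => h.deg a
  rw [sum_const, smul_eq_mul] at h4
  unfold ein
  omega

end BIPCx

theorem p_BIPC :
    S_BIPC := by
  intro V _ G h ⟨c, hc⟩ hW
  have key : ∀ W : Finset V, ∃ x y : ℕ, x + y = #W ∧ ein G W ≤ 3 * x ∧ ein G W ≤ 3 * y ∧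
      ein G W ≤ x * y := by
    intro W
    refine ⟨#(W.filter fun v => c v = true), #(W.filter fun v => ¬ c v = true),
      card_filter_add_card_filter_not _, BIPCx.cover h _ _ ?_, BIPCx.cover h _ _ ?_, ?_⟩
    · intro e he hs
      obtain ⟨a, b, rfl, ha, -⟩ := hc e he
      exact ⟨a, mem_filter.2 ⟨hs (by simp), ha⟩, by simp⟩
    · intro e he hs
      obtain ⟨a, b, rfl, -, hb⟩ := hc e he
      exact ⟨b, mem_filter.2 ⟨hs (by simp), by simp [hb]⟩, by simp⟩
    · refine le_trans (card_le_card (t := image₂ (fun a b => ({a, b} : Finset V))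
        (W.filter fun v => c v = true) (W.filter fun v => ¬ c v = true)) ?_) (card_image₂_le _ _ _)
      intro e he
      obtain ⟨h1, hs⟩ := mem_filter.1 he
      obtain ⟨a, b, rfl, ha, hb⟩ := hc e h1
      exact mem_image₂_of_mem (mem_filter.2 ⟨hs (by simp), ha⟩)
        (mem_filter.2 ⟨hs (by simp), by simp [hb]⟩)
  refine ⟨h, fun W hne => ?_, fun W hne h4 => ?_⟩
  · obtain ⟨x, y, h1, h2, h3, -⟩ := key W
    have := hW W hne
    omega
  · obtain ⟨x, y, h1, -, -, h2⟩ := key W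
    have h0 := card_pos.2 hne
    have hx : x ≤ 4 := by omega
    have hy : y ≤ 4 := by omega
    interval_cases x <;> interval_cases y <;> omega

end Pool.Agent.P.MP_75e851_co.R3
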