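import Pool.Agent.P.MP_75e851_co.R3.Iface

/-! Step CHERRY. -/

set_option autoImplicit false
set_option linter.unusedSectionVars false

namespace Pool.Agent.P.MP_75e851_co.R3

open Finset MvPolynomial

theorem p_CHERRY (hDIM : S_DIM) (hPURGE : S_PURGE) (hPAIR : S_PAIR) (hDEAD : S_DEAD)
    (hFIVE : S_FIVE) (hSIX : S_SIX) (hPICK : S_PICK) :
    S_CHERRY := by
  intro V _ G s t u m hG h2 hm ih y hy h0
  obtain ⟨f1, f2, f3⟩ := hFIVE V G s t u hG h2
  obtain ⟨d1, d2⟩ := hDEAD V G s t u m
  set H := del {s, t, u} G with hH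
  have cH : Cls H := hG.mono del_sub
  have c6 : #(st G t ∪ st G u) ≤ 6 := by
    have := card_union_le (st G t) (st G u)
    have := hG.deg t
    have := hG.deg u
    omega
  have c2 : 2 ≤ #(st G t ∪ st G u) := by
    have k1 : ({s, t} : Finset V) ∈ G := st_sub (v := s) (by rw [h2.st]; simp)
    have k2 : ({s, u} : Finset V) ∈ G := st_sub (v := s) (by rw [h2.st]; simp)
    have k3 : ({s, t} : Finset V) ≠ {s, u} := fun k => by
      have : t ∈ ({s, u} : Finset V) := k ▸ (by simp)
      rcases mem_insert.1 this with l | l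
      · exact hG.adj_ne k1 l.symm
      · exact h2.ne (mem_singleton.1 l)
    rw [← card_pair k3]
    refine card_le_card fun e he => ?_
    rcases mem_insert.1 he with l | l
    · exact l ▸ mem_union_left _ (mem_st.2 ⟨k1, by simp⟩)
    · exact mem_singleton.1 l ▸ mem_union_right _ (mem_st.2 ⟨k2, by simp⟩)
  by_cases h4 : #(st G t ∪ st G u) ≤ 4
  · refine d1 h2 y (ih H cH (by omega) (by omega) y (Ch.le (fun M a b => xs_memN a b ?_) hy) h0)
    by_contra k
    have := (hDIM V H M cH.toSub3 a k).1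
    omega
  by_cases h5 : #(st G t ∪ st G u) ≤ 5
  · obtain ⟨a, c, hp⟩ := f2 (by omega)
    obtain ⟨w, w1, w2⟩ := hPURGE V H H m (Dead G s t u m) y cH Subset.rfl (by omega)
      (ih H cH (by omega) (by omega)) hy h0 fun M _ hM =>
      ⟨{a, c}, card_le_two, by
        rw [disjoint_left]
        intro v hv k
        have := hM.deg v k
        have := f3 a c hp
        rcases mem_insert.1 hv with l | l
        · subst l; omega
        · obtain rfl := mem_singleton.1 l; omega, (d2 a c hp).1⟩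
    have := Submodule.add_mem _ (d1 h2 _ w2) w1
    rwa [add_assoc, aa, add_zero] at this
  obtain ⟨A, C, mk, hp⟩ := hSIX V G s t u hG h2 (by omega)
  obtain ⟨a, ha, c, hc, hac, hn, cK⟩ := hPAIR V H A C cH mk
  have k1 := card_insert_of_notMem hn
  obtain ⟨w, w1, w2⟩ := hPURGE V (insert {a, c} H) H m (Dead G s t u m ⊓ Ch H m) y cK
    (subset_insert _ _) (by omega) (ih _ cK (by omega) (by omega)) hy h0 fun M m1 hM => by
      obtain ⟨a', ha', c', hc', n1, n2, n3, n4⟩ := hPICK V H M A C a c mk ha hc hac m1 hn hM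
      refine ⟨{a', c'}, card_le_two, ?_, fun z hz z0 => ⟨(d2 a' c' (hp a' ha' c' hc' n1)).1 z
        (Ch.mono (fun e he => mem_del.2 ⟨n4 he, (mem_del.1 he).2⟩) hz) z0, Ch.mono n4 hz⟩⟩
      rw [disjoint_insert_left, disjoint_singleton_left]
      exact ⟨n2, n3⟩
  have := Submodule.add_mem _
    ((d2 a c (hp a ha c hc hac)).2 hn _ (Submodule.add_mem _ hy w1.2) w2) w1.1
  rwa [add_assoc, aa, add_zero] at this

end Pool.Agent.P.MP_75e851_co.R3
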