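import Pool.Agent.P.MP_75e851_co.R3.Iface

/-! Step CON. -/

set_option autoImplicit false
set_option linter.unusedSectionVars false

namespace Pool.Agent.P.MP_75e851_co.R3

open Finset MvPolynomial

theorem p_CON :
    S_CON := by
  intro V _ B a
  induction a with
  | zero =>
    exact fun _ => ⟨fun _ => 0, fun s _ =>
      ⟨Submodule.zero_mem _, fun h => absurd h (Nat.not_lt_zero _), fun _ => rfl⟩⟩
  | succ n ih =>
    intro h
    obtain ⟨g, hg⟩ := ih fun i hi => h i (by omega)
    have hc : ∀ (s : Gr V), ∀ e ∈ s, #(s.erase e) + 1 = #s := fun s e he =>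
      card_erase_add_one he
    have key : ∀ s, Mt B s → #s = n →
        ∃ b ∈ Ch B (n + 1), D b = xs s + ∑ e ∈ s, g (s.erase e) := by
      intro s hs hn
      refine mem_Bd.1 (h n (by omega) _ ?_ ?_)
      · refine Submodule.add_mem _ (xs_mem hs hn) (Submodule.sum_mem _ fun e he => ?_)
        have := (hg _ (hs.sub (erase_subset e s))).1
        rwa [hc s e he, hn] at this
      · have h1 : ∀ e ∈ s, D (g (s.erase e)) =
            xs (s.erase e) + ∑ j ∈ s.erase e, g ((s.erase e).erase j) := fun e he =>
          (hg _ (hs.sub (erase_subset e s))).2.1 (by have := hc s e he; omega)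
        rw [map_add, map_sum, D_xs, sum_congr rfl h1, sum_add_distrib, sym_sum, add_zero, aa]
    choose! b hb1 hb2 using key
    refine ⟨fun s => if #s = n then b s else g s, fun s hs => ⟨?_, fun hl => ?_, fun hl => ?_⟩⟩
    · by_cases k : #s = n
      · simp only [if_pos k]
        rw [k]
        exact hb1 s hs k
      · simp only [if_neg k]
        exact (hg s hs).1
    · have h2 : ∀ e ∈ s, (if #(s.erase e) = n then b (s.erase e) else g (s.erase e)) =
          g (s.erase e) := fun e he => if_neg (by have := hc s e he; omega)
      beta_reduce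
      rw [sum_congr rfl h2]
      by_cases k : #s = n
      · rw [if_pos k]
        exact hb2 s hs k
      · rw [if_neg k]
        exact (hg s hs).2.1 (by omega)
    · beta_reduce
      rw [if_neg (by omega)]
      exact (hg s hs).2.2 (by omega)

end Pool.Agent.P.MP_75e851_co.R3
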