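import Pool.Agent.P.MP_75e851_co.R3.Iface

/-! Step CUB. -/

set_option autoImplicit false
set_option linter.unusedSectionVars false

namespace Pool.Agent.P.MP_75e851_co.R3

open Finset MvPolynomial

theorem p_CUB (hDIM : S_DIM) (hPURGE : S_PURGE) (hT : S_T) :
    S_CUB := by
  intro V _ B f m hB hf hC hm z hz h0
  have hne := hB.ne hf
  have cn : ∀ n, ∀ y ∈ Ch (del f B) n, D y = 0 → y ∈ Bd B n := fun n y hy e =>
    mem_Bd.2 ⟨_, X_mul_mem hf hne hy, by rw [D_mul, e, D_X, mul_zero, zero_add, mul_one]⟩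
  rcases m with _ | m
  · refine Ch.le (fun s _ b => ?_) hz
    rw [card_eq_zero.1 b]
    exact cn 0 _ one_mem (D_zero (G := B) one_mem)
  obtain ⟨t, ht⟩ := id hne
  have hsub : del f B ⊆ B.erase f := fun g hg =>
    mem_erase.2 ⟨fun e => hB.nd hf (e ▸ (mem_del.1 hg).2), del_sub hg⟩
  have hG := hC.mono hsub
  have hl := hB.card_link hf
  obtain ⟨y, y1, y2, y3⟩ := star (F := {f}) (t := t)
    (singleton_subset_iff.2 (mem_st.2 ⟨hf, ht⟩)) hz h0 fun g hg => by
      rw [mem_singleton.1 hg]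
      refine hT V _ m hG (by omega) _ (Ch.le (fun s a b => xs_memN a b ?_) (pd_mem f hz))
        (by rw [← pd_D, h0, map_zero])
      by_contra hn
      have := (hDIM V _ s hG.toSub3 a hn).1
      omega
  rw [sdiff_singleton_eq_erase] at y1
  have hc : 5 * (m + 1) ≤ #(B.erase f) := by rw [card_erase_of_mem hf]; omega
  obtain ⟨w, w1, w2⟩ := hPURGE V _ _ (m + 1) (Bd B (m + 1)) y hC Subset.rfl hc (hT V _ _ hC hc)
    y1 y2 fun M _ hM => ⟨f, (hB.two f hf).le, disjoint_left.2 fun v hv hv' => by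
      have h1 := hM.deg v hv'
      have h2 := hB.deg v
      have h3 : st (B.erase f) v ⊆ (st B v).erase f := fun g hg =>
        mem_erase.2 ⟨ne_of_mem_erase (mem_st.1 hg).1, st_mono (erase_subset _ _) hg⟩
      have h4 := card_le_card h3
      rw [card_erase_of_mem (mem_st.2 ⟨hf, hv⟩)] at h4
      omega, fun u hu => cn _ u (Ch.mono (del_mono (erase_subset _ _)) hu)⟩
  exact Bd.of_add y3 (Bd.of_add (Bd.mono (erase_subset _ _) w2) w1)

end Pool.Agent.P.MP_75e851_co.R3
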