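import Pool.Agent.P.MP_75e851_co.R3.Iface

/-! Step DEAD. -/

set_option autoImplicit false
set_option linter.unusedSectionVars false

namespace Pool.Agent.P.MP_75e851_co.R3

open Finset MvPolynomial

namespace DEADx

variable {V : Type} [DecidableEq V] {G : Gr V} {s t u a c : V} {m : ℕ}

theorem del_anti {U U' : Finset V} (h : U ⊆ U') : del U' G ⊆ del U G := fun _ he =>
  mem_del.2 ⟨(mem_del.1 he).1, (mem_del.1 he).2.mono_left h⟩

theorem st_mem (h : Two G s t u) : ({s, t} : Finset V) ∈ G :=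
  st_sub (v := s) (by rw [h.st]; simp)

theorem su_mem (h : Two G s t u) : ({s, u} : Finset V) ∈ G :=
  st_sub (v := s) (by rw [h.st]; simp)

theorem one (h : Two G s t u) {y : R (Finset V)} (hy : y ∈ Bd (del {s, t, u} G) m) :
    y ∈ Dead G s t u m := by
  obtain ⟨b, hb, rfl⟩ := mem_Bd.1 hy
  refine mem_Dead.2 (mem_Bd.2 ⟨(X ({s, t} : Finset V) + X ({s, u} : Finset V)) * b, ?_, ?_⟩)
  · rw [add_mul]
    refine Submodule.add_mem _ (X_mul_mem (st_mem h) ⟨s, by simp⟩ (Ch.mono (del_anti ?_) hb))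
      (X_mul_mem (su_mem h) ⟨s, by simp⟩ (Ch.mono (del_anti ?_) hb))
    · intro v hv; simp only [mem_insert, mem_singleton] at hv ⊢; tauto
    · intro v hv; simp only [mem_insert, mem_singleton] at hv ⊢; tauto
  · simp only [D_mul, map_add, D_X]
    linear_combination b * two_z

theorem pair_mem {H : Gr V} {f g : Finset V} (hf : f ∈ G) (hg : g ∈ G) (f0 : f.Nonempty)
    (g0 : g.Nonempty) (hd : Disjoint f g) (hH : H ⊆ del (f ∪ g) G) {y : R (Finset V)}
    (hy : y ∈ Ch H m) : X f * (X g * y) ∈ Ch G (m + 1 + 1) :=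
  X_mul_mem hf f0 (X_mul_mem (mem_del.2 ⟨hg, hd⟩) g0 (Ch.mono (fun e he => by
    obtain ⟨h1, h2⟩ := mem_del.1 (hH he)
    rw [disjoint_union_left] at h2
    exact mem_del.2 ⟨mem_del.2 ⟨h1, h2.1⟩, h2.2⟩) hy))

theorem sub_del {U : Finset V} (h : U ⊆ {a, c} ∪ {s, t, u}) :
    del {a, c} (del {s, t, u} G) ⊆ del U G := fun e he => by
  obtain ⟨h1, h2⟩ := mem_del.1 he
  obtain ⟨h3, h4⟩ := mem_del.1 h1
  exact mem_del.2 ⟨h3, (disjoint_union_left.2 ⟨h2, h4⟩).mono_left h⟩

theorem two (h : Path G s t u a c) {y : R (Finset V)}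
    (hy : y ∈ Ch (del {a, c} (del {s, t, u} G)) m) (h0 : D y = 0) : y ∈ Dead G s t u m := by
  have e1 := st_mem h.toTwo
  have e2 := su_mem h.toTwo
  have n1 := h.sub.adj_ne e1
  have n2 := h.sub.adj_ne e2
  have n3 := h.ne
  have n4 := h.as
  have n5 := h.au
  have n6 := h.cs
  have n7 := h.ct
  have n8 := h.ac
  refine mem_Dead.2 (mem_Bd.2 ⟨X ({s, t} : Finset V) * (X ({u, c} : Finset V) * y) +
    X ({u, c} : Finset V) * (X ({t, a} : Finset V) * y) +
    X ({t, a} : Finset V) * (X ({s, u} : Finset V) * y), ?_, ?_⟩)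
  · refine Submodule.add_mem _ (Submodule.add_mem _
      (pair_mem e1 h.uc ⟨s, by simp⟩ ⟨u, by simp⟩ ?_ (sub_del ?_) hy)
      (pair_mem h.uc h.ta ⟨u, by simp⟩ ⟨t, by simp⟩ ?_ (sub_del ?_) hy))
      (pair_mem h.ta e2 ⟨t, by simp⟩ ⟨s, by simp⟩ ?_ (sub_del ?_) hy)
    · simp [n2.symm, n3.symm, n6, n7]
    · intro v hv; simp only [mem_union, mem_insert, mem_singleton] at hv ⊢; tauto
    · simp [n3, n5, n7.symm, n8]
    · intro v hv; simp only [mem_union, mem_insert, mem_singleton] at hv ⊢; tauto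
    · simp [n1, n3.symm, n4.symm, n5.symm]
    · intro v hv; simp only [mem_union, mem_insert, mem_singleton] at hv ⊢; tauto
  · simp only [D_mul, map_add, D_X, h0]
    linear_combination (X ({u, c} : Finset V) * y + X ({t, a} : Finset V) * y) * two_z

end DEADx

theorem p_DEAD :
    S_DEAD := by
  intro V _ G s t u m
  refine ⟨fun h y hy => DEADx.one h hy, fun a c h => ⟨fun y hy h0 => DEADx.two h hy h0,
    fun he y hy hB => ?_⟩⟩
  obtain ⟨b, hb, rfl⟩ := mem_Bd.1 hB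
  have h1 : pderiv ({a, c} : Finset V) b ∈ Ch (del {a, c} (del {s, t, u} G)) m :=
    Ch.mono (fun e k => by
      obtain ⟨k1, k2⟩ := mem_del.1 k
      rcases mem_insert.1 k1 with rfl | k1
      · exact absurd (disjoint_self.1 k2) (insert_ne_empty _ _)
      · exact mem_del.2 ⟨k1, k2⟩) (pd_mem _ hb)
  have h2 : D (pderiv ({a, c} : Finset V) b) = 0 := by rw [← pd_D, pd_not he hy]
  have h3 := rest_mem ({a, c} : Finset V) hb
  rw [erase_insert he] at h3
  have h4 := Submodule.add_mem _ (DEADx.one h.toTwo (mem_Bd.2 ⟨_, h3, rfl⟩)) (DEADx.two h h1 h2)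
  rwa [map_add, D_mul, h2, D_X, mul_zero, zero_add, mul_one, add_assoc, aa, add_zero] at h4

end Pool.Agent.P.MP_75e851_co.R3
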