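import Pool.Agent.P.MP_75e851_co.R3.Iface

/-! Step DEC. -/

set_option autoImplicit false
set_option linter.unusedSectionVars false

namespace Pool.Agent.P.MP_75e851_co.R3

open Finset MvPolynomial

namespace DECx

variable {V : Type} [DecidableEq V] {G : Gr V}

theorem sum_le (h : Sub3 G) (W : Finset V) : ∑ e ∈ G, #(e ∩ W) ≤ 3 * #W := by
  rw [← sum_st, mul_comm, ← smul_eq_mul, ← sum_const]
  exact sum_le_sum fun v _ => h.deg v

theorem sum_in (h : Sub3 G) (W : Finset V) :
    ∑ e ∈ G.filter (fun e => e ⊆ W), #(e ∩ W) = 2 * ein G W := by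
  rw [ein, mul_comm, ← smul_eq_mul, ← sum_const]
  refine sum_congr rfl fun e he => ?_
  rw [inter_eq_left.2 (mem_filter.1 he).2, h.two e (mem_filter.1 he).1]

theorem le3 (h : Sub3 G) (W : Finset V) : 2 * ein G W ≤ 3 * #W := by
  rw [← sum_in h]
  exact (sum_le_sum_of_subset (filter_subset _ _)).trans (sum_le h W)

theorem miss (h : Sub3 G) {W : Finset V} (hW : 3 * #W ≤ 2 * ein G W) {f : Finset V}
    (hf : f ∈ G) (hn : ¬ f ⊆ W) : Disjoint f W := by
  have h1 := sum_le h W
  have h2 : ∑ e ∈ insert f (G.filter fun e => e ⊆ W), #(e ∩ W) ≤ ∑ e ∈ G, #(e ∩ W) :=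
    sum_le_sum_of_subset (insert_subset hf (filter_subset _ _))
  rw [sum_insert (by simp [hn]), sum_in h] at h2
  have : #(f ∩ W) = 0 := by omega
  rwa [card_eq_zero, ← disjoint_iff_inter_eq_empty] at this

end DECx

theorem p_DEC (hBIPC : S_BIPC) :
    S_DEC := by
  intro V _ G hs hb hn
  classical
  have hex : ∃ n, ∃ W : Finset V, W.Nonempty ∧ 3 * #W ≤ 2 * ein G W ∧ #W = n := by
    by_contra hc
    exact hn (hBIPC V G hs hb fun W hW => lt_of_not_ge fun k => hc ⟨_, W, hW, k, rfl⟩)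
  obtain ⟨W, hW, hW3, hWn⟩ := Nat.find_spec hex
  have hmin : ∀ Z : Finset V, Z.Nonempty → 3 * #Z ≤ 2 * ein G Z → #W ≤ #Z := fun Z a b =>
    hWn ▸ Nat.find_min' hex ⟨Z, a, b, rfl⟩
  have hp := card_pos.2 hW
  refine ⟨G.filter fun e => e ⊆ W, G.filter fun e => ¬ e ⊆ W,
    (filter_union_filter_not_eq _ _).symm, disjoint_filter_filter_not _ _ _, fun e he f hf => ?_,
    card_pos.1 ?_, fun f hf => ?_⟩
  · exact (DECx.miss hs hW3 (mem_filter.1 hf).1 (mem_filter.1 hf).2).symm.mono_left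
      (mem_filter.1 he).2
  · change 0 < ein G W
    omega
  have hsub : (G.filter fun e => e ⊆ W).erase f ⊆ G := (erase_subset _ _).trans (filter_subset _ _)
  refine hBIPC V _ (hs.mono hsub) (hb.mono hsub) fun Z hZ => lt_of_not_ge fun k => ?_
  have h1 : ein ((G.filter fun e => e ⊆ W).erase f) Z ≤ ein G (Z ∩ W) :=
    card_le_card fun e he => by
      simp only [mem_filter, mem_erase] at he ⊢
      exact ⟨he.1.2.1, subset_inter he.2 he.1.2.2⟩
  have hz := card_pos.2 hZ
  have h2 : (Z ∩ W).Nonempty := by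
    obtain ⟨e, he⟩ := card_pos.1 (show 0 < ein G (Z ∩ W) by omega)
    exact (hs.ne (mem_filter.1 he).1).mono (mem_filter.1 he).2
  have h3 : #(Z ∩ W) ≤ #Z := card_le_card inter_subset_left
  have h4 := hmin _ h2 (by omega)
  have h5 : ein ((G.filter fun e => e ⊆ W).erase f) Z + 1 ≤ ein G W := by
    have a : ein ((G.filter fun e => e ⊆ W).erase f) Z ≤ #((G.filter fun e => e ⊆ W).erase f) :=
      card_le_card (filter_subset _ _)
    have b := card_erase_add_one hf
    change _ = ein G W at b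
    omega
  have h6 := DECx.le3 hs W
  omega

end Pool.Agent.P.MP_75e851_co.R3
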