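import Pool.Agent.P.MP_75e851_co.R3.Iface

/-! Step DIM. -/

set_option autoImplicit false
set_option linter.unusedSectionVars false

namespace Pool.Agent.P.MP_75e851_co.R3

open Finset MvPolynomial

theorem p_DIM :
    S_DIM := by
  intro V _ K M hK hM hE
  have h1 : #(vs M) ≤ 2 * #M := by
    refine card_biUnion_le.trans ((sum_le_card_nsmul _ _ 2 fun e he => ?_).trans_eq ?_)
    · exact (hK.two e (hM.1 he)).le
    · rw [smul_eq_mul, mul_comm]
  have h2 : ∀ g ∈ K, 1 + (if g ∈ M then 1 else 0) ≤ #(g ∩ vs M) := fun g hg => by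
    split_ifs with h
    · rw [inter_eq_left.2 fun v hv => mem_vs.2 ⟨g, h, hv⟩, hK.two g hg]
    · refine card_pos.2 (not_disjoint_iff_nonempty_inter.1 fun hd => hE ⟨g, hg, fun e he => ?_⟩)
      exact hd.mono_right fun v hv => mem_vs.2 ⟨e, he, hv⟩
  have h3 : ∑ g ∈ K, (1 + if g ∈ M then 1 else 0) = #K + #M := by
    rw [sum_add_distrib, ← card_filter, filter_mem_eq_inter, inter_eq_right.2 hM.1, sum_const,
      smul_eq_mul, mul_one]
  have h4 : ∑ _v ∈ vs M, 3 = 3 * #(vs M) := by rw [sum_const, smul_eq_mul, mul_comm]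
  have h5 := sum_st K (vs M)
  have h6 := sum_le_sum h2
  have h7 := sum_le_sum fun v (_ : v ∈ vs M) => hK.deg v
  refine ⟨by omega, fun h => ⟨hM, ?_, fun g hg hn => ?_⟩⟩
  · exact (sum_eq_sum_iff_of_le fun v (_ : v ∈ vs M) => hK.deg v).1 (by omega)
  · have h8 := (sum_eq_sum_iff_of_le h2).1 (by omega) g hg
    rw [if_neg hn] at h8
    obtain ⟨x, hx⟩ := card_eq_one.1 h8.symm
    have h9 := mem_inter.1 (hx ▸ mem_singleton_self x)
    obtain ⟨w, hw, rfl⟩ := other (hK.two g hg) h9.1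
    exact ⟨x, w, rfl, h9.2, fun k => hw (mem_singleton.1 (hx ▸ mem_inter.2 ⟨by simp, k⟩))⟩

end Pool.Agent.P.MP_75e851_co.R3
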