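import Pool.Agent.P.MP_75e851_co.R3.Iface

/-! Step FIVE. -/

set_option autoImplicit false
set_option linter.unusedSectionVars false

namespace Pool.Agent.P.MP_75e851_co.R3

open Finset MvPolynomial

namespace FIVEx

variable {V : Type} [DecidableEq V] {G : Gr V}

theorem nb (h : Sub3 G) {s t u : V} (h5 : 5 ≤ #(st G t ∪ st G u)) :
    ∃ a, ({t, a} : Finset V) ∈ G ∧ a ≠ s ∧ a ≠ u := by
  by_contra! hn
  have h1 : st G t ∪ st G u ⊆ insert {t, s} (st G u) := fun e he => by
    rcases mem_union.1 he with k | k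
    · obtain ⟨k1, k2⟩ := mem_st.1 k
      obtain ⟨a, -, rfl⟩ := other (h.two e k1) k2
      by_cases e1 : a = s
      · rw [e1]; exact mem_insert_self _ _
      · exact mem_insert_of_mem (mem_st.2 ⟨k1, by simp [hn a k1 e1]⟩)
    · exact mem_insert_of_mem k
  have := (card_le_card h1).trans (card_insert_le _ _)
  have := h.deg u
  omega

theorem lo (h : Sub3 G) {U : Finset V} {t a : V} (ht : t ∈ U) (he : ({t, a} : Finset V) ∈ G) :
    #(st (del U G) a) ≤ 2 := by
  have h1 : st (del U G) a ⊆ (st G a).erase {t, a} := fun e k => by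
    obtain ⟨k1, k2⟩ := mem_st.1 k
    obtain ⟨k3, k4⟩ := mem_del.1 k1
    refine mem_erase.2 ⟨?_, mem_st.2 ⟨k3, k2⟩⟩
    rintro rfl
    exact disjoint_left.1 k4 ht (by simp)
  have h2 := card_le_card h1
  rw [card_erase_of_mem (mem_st.2 ⟨he, by simp⟩)] at h2
  have := h.deg a
  omega

end FIVEx

open FIVEx in
theorem p_FIVE :
    S_FIVE := by
  intro V _ G s t u hc h
  refine ⟨?_, fun h5 => ?_, fun a c hp => ⟨lo h.sub (by simp) hp.ta, lo h.sub (by simp) hp.uc⟩⟩
  · rw [card_del G {s, t, u}, biUnion_insert, biUnion_insert, singleton_biUnion]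
    congr 2
    refine union_eq_right.2 fun e he => ?_
    have h1 := (mem_st.1 he).1
    rw [h.st] at he
    rcases mem_insert.1 he with k | k
    · exact mem_union_left _ (mem_st.2 ⟨h1, by simp [k]⟩)
    · exact mem_union_right _ (mem_st.2 ⟨h1, by simp [mem_singleton.1 k]⟩)
  · by_contra hn
    have key : ∀ a c, ({t, a} : Finset V) ∈ G → ({u, c} : Finset V) ∈ G → a ≠ s → a ≠ u →
        c ≠ s → c ≠ t → a = c := fun a c h1 h2 h3 h4 h6 h7 => by
      by_contra h8
      exact hn ⟨a, c, h, h1, h2, h3, h4, h6, h7, h8⟩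
    obtain ⟨a, a1, a2, a3⟩ := nb (s := s) h.sub h5
    obtain ⟨c, c1, c2, c3⟩ := nb (s := s) h.sub (union_comm (st G t) _ ▸ h5)
    have e := key a c a1 c1 a2 a3 c2 c3
    have h1 : st G t ∪ st G u ⊆ G.filter fun e => e ⊆ ({s, t, u, a} : Finset V) := fun f hf => by
      rcases mem_union.1 hf with k | k <;> obtain ⟨k1, k2⟩ := mem_st.1 k <;>
        obtain ⟨b, -, rfl⟩ := other (h.sub.two f k1) k2 <;> refine mem_filter.2 ⟨k1, ?_⟩
      · by_cases e1 : b = s
        · simp [insert_subset_iff, e1]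
        by_cases e2 : b = u
        · simp [insert_subset_iff, e2]
        simp [insert_subset_iff, (key b c k1 c1 e1 e2 c2 c3).trans e.symm]
      · by_cases e1 : b = s
        · simp [insert_subset_iff, e1]
        by_cases e2 : b = t
        · simp [insert_subset_iff, e2]
        simp [insert_subset_iff, ← key a b a1 k1 a2 a3 e1 e2]
    have h2 : 5 ≤ ein G {s, t, u, a} := h5.trans (card_le_card h1)
    have h3 : #({s, t, u, a} : Finset V) ≤ 4 := card_le_four
    have := hc.d3 {s, t, u, a} (insert_nonempty _ _) h3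
    omega

end Pool.Agent.P.MP_75e851_co.R3
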