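import Pool.Agent.P.MP_75e851_co.R3.Iface

/-! Step FLIP. -/

set_option autoImplicit false
set_option linter.unusedSectionVars false

namespace Pool.Agent.P.MP_75e851_co.R3

open Finset MvPolynomial

theorem p_FLIP (hFLIPA : S_FLIPA) (hFLM : S_FLM) :
    S_FLIP := by
  intro V _ K M J U x w h3 hD hS hJ hF
  have _ := hFLM
  obtain ⟨y, p, h1, h2, hp, h4⟩ := hFLIPA V K M J U x w h3 hD hS hJ hF
  have hy : ∀ m ∈ J, y m ∈ m := fun m hm => by
    have : y m ∈ ({x m, y m} : Finset V) := by simp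
    rwa [← (h1 m hm).2] at this
  refine ⟨fun m => if m ∈ J then y m else x m, fun m => if m ∈ J then w (p m) else w m,
    ⟨fun m hm => ?_, fun m hm => ?_, fun m hm => ?_, fun m hm => ?_, fun m hm n hn e => ?_⟩,
    fun m _ hm => ⟨if_neg hm, if_neg hm⟩, fun J' hJ' hF' => disjoint_left.2 fun m a b => ?_⟩
  · split_ifs with h
    exacts [hy m h, hS.mem m hm]
  · split_ifs with h
    exacts [(h2 m h).2, hS.adj m hm]
  · split_ifs with h
    exacts [hS.out _ (hJ (h2 m h).1), hS.out m hm]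
  · split_ifs with h
    exacts [hS.off _ (hJ (h2 m h).1), hS.off m hm]
  · split_ifs at e with a b b
    · exact hp a b (hS.inj (hJ (h2 m a).1) (hJ (h2 n b).1) e)
    · exact absurd (hS.inj (hJ (h2 m a).1) hn e ▸ (h2 m a).1) b
    · exact absurd (hS.inj (hJ (h2 n b).1) hm e.symm ▸ (h2 n b).1) a
    · exact hS.inj hm hn e
  · obtain ⟨k, k1, k2, k3⟩ := h4 (p m) (h2 m a).1 m a
    have e0 : ∀ n ∈ J, n ∈ J' → ({y n, w (p n)} : Finset V) ∈
        Fl M J' (fun m => if m ∈ J then y m else x m) fun m => if m ∈ J then w (p m) else w m :=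
      fun n c d => mem_union_right _ (mem_image.2 ⟨n, d, by simp only [if_pos c]⟩)
    have v1 := mem_vs.2 ⟨_, e0 m a b, (by simp : w (p m) ∈ ({y m, w (p m)} : Finset V))⟩
    have v2 : y k ∈ vs (Fl M J' (fun m => if m ∈ J then y m else x m)
        fun m => if m ∈ J then w (p m) else w m) := by
      by_cases c : k ∈ J'
      · exact mem_vs.2 ⟨_, e0 k k1 c, by simp⟩
      · exact mem_vs.2 ⟨k, mem_union_left _ (mem_sdiff.2 ⟨hJ k1, c⟩), hy k k1⟩
    by_cases c : ({y k, w (p m)} : Finset V) ∈ Fl M J' (fun m => if m ∈ J then y m else x m)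
        fun m => if m ∈ J then w (p m) else w m
    · have e := hF'.mt.eq (v := w (p m)) c (e0 m a b) (by simp) (by simp)
      have : y k ∈ ({y m, w (p m)} : Finset V) := e ▸ mem_insert_self _ _
      rcases mem_insert.1 this with d | d
      · exact k2 (hD.mt.eq (hJ k1) (hJ a) (hy k k1) (d ▸ hy m a))
      · exact hS.out _ (hJ (h2 m a).1) (mem_singleton.1 d ▸ mem_vs.2 ⟨k, hJ k1, hy k k1⟩)
    · obtain ⟨s, t, e, -, d⟩ := hF'.one _ k3 c
      have : t ∈ ({y k, w (p m)} : Finset V) := e ▸ (by simp)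
      rcases mem_insert.1 this with f | f
      · exact d (f ▸ v2)
      · exact d (mem_singleton.1 f ▸ v1)

end Pool.Agent.P.MP_75e851_co.R3
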