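import Pool.Agent.P.MP_75e851_co.R3.Iface

/-! Step FLIPA. -/

set_option autoImplicit false
set_option linter.unusedSectionVars false

namespace Pool.Agent.P.MP_75e851_co.R3

open Finset MvPolynomial

namespace FLIPAx

variable {V : Type} [DecidableEq V]

theorem two {K J : Gr V} {v : V} {e : Finset V} {f : Finset V → Finset V} (h3 : #(st K v) = 3)
    (he : e ∈ st K v) (h : ∀ g ∈ K, v ∈ g → g ≠ e → ∃ k ∈ J, g = f k) :
    2 ≤ #(J.filter fun k => f k ∈ K) := by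
  have h1 : (st K v).erase e ⊆ (J.filter fun k => f k ∈ K).image f := fun g hg => by
    obtain ⟨h1, h2⟩ := mem_erase.1 hg
    obtain ⟨h2, h4⟩ := mem_st.1 h2
    obtain ⟨k, hk, rfl⟩ := h g h2 h4 h1
    exact mem_image_of_mem f (mem_filter.2 ⟨hk, h2⟩)
  have h2 := (card_le_card h1).trans card_image_le
  rwa [card_erase_of_mem he, h3] at h2

/-- an edge between the two classes, seen from two sets -/
theorem cross {A B g : Finset V} {v : V} (hv : v ∈ g) (hA : v ∈ A) (hB : v ∉ B)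
    (h1 : ∃ a b, g = {a, b} ∧ a ∈ A ∧ b ∉ A) (h2 : ∃ a b, g = {a, b} ∧ a ∈ B ∧ b ∉ B) :
    ∃ u, g = {v, u} ∧ u ∉ A ∧ u ∈ B := by
  obtain ⟨a, b, rfl, ha, hb⟩ := h1
  obtain ⟨c, d, e, hc, -⟩ := h2
  have h3 : c ∈ ({a, b} : Finset V) := e ▸ mem_insert_self c {d}
  simp only [mem_insert, mem_singleton] at hv h3
  obtain rfl : v = a := by grind
  exact ⟨b, rfl, hb, by grind⟩

end FLIPAx

open FLIPAx in
theorem p_FLIPA :
    S_FLIPA := by
  intro V _ K M J U x w hK hM hS hJ hF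
  have hy : ∀ m, ∃ u, m ∈ J → u ≠ x m ∧ m = {x m, u} := fun m => by
    by_cases h : m ∈ J
    · obtain ⟨u, hu⟩ := other (hK.two m (hM.mt.1 (hJ h))) (hS.mem m (hJ h))
      exact ⟨u, fun _ => hu⟩
    · exact ⟨x m, fun h' => absurd h' h⟩
  choose y hy using hy
  have ym : ∀ m ∈ J, y m ∈ m := fun m hm => (hy m hm).2.ge (by simp)
  have yM : ∀ m ∈ J, y m ∈ vs M := fun m hm => mem_vs.2 ⟨m, hJ hm, ym m hm⟩
  have eF : ∀ k ∈ J, ({x k, w k} : Finset V) ∈ Fl M J x w :=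
    fun k hk => mem_union_right _ (mem_image_of_mem _ hk)
  have vF : ∀ v ∈ vs (Fl M J x w), (∃ m ∈ M, m ∉ J ∧ v ∈ m) ∨ ∃ k ∈ J, v = x k ∨ v = w k := by
    intro v hv
    obtain ⟨e, he, hv⟩ := mem_vs.1 hv
    rcases mem_union.1 he with h | h
    · exact Or.inl ⟨e, (mem_sdiff.1 h).1, (mem_sdiff.1 h).2, hv⟩
    · obtain ⟨k, hk, rfl⟩ := mem_image.1 h
      exact Or.inr ⟨k, hk, by simpa using hv⟩
  have yx : ∀ m ∈ J, ∀ k ∈ J, y m ≠ x k := fun m hm k hk e => by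
    obtain rfl := hM.mt.eq (hJ hm) (hJ hk) (ym m hm) (e ▸ hS.mem k (hJ hk))
    exact (hy m hm).1 e
  have yw : ∀ m ∈ J, ∀ k ∈ J, y m ≠ w k := fun m hm k hk e => hS.out k (hJ hk) (e ▸ yM m hm)
  have yF : ∀ m ∈ J, y m ∉ vs (Fl M J x w) := fun m hm h => by
    rcases vF _ h with ⟨k, h1, h2, h3⟩ | ⟨k, hk, e | e⟩
    · exact h2 (hM.mt.eq (hJ hm) h1 (ym m hm) h3 ▸ hm)
    · exact yx m hm k hk e
    · exact yw m hm k hk e
  have h1 : ∀ m ∈ J, 2 ≤ #(J.filter fun k => ({y m, w k} : Finset V) ∈ K) := fun m hm => by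
    refine two (hM.deg _ (yM m hm)) (mem_st.2 ⟨hM.mt.1 (hJ hm), ym m hm⟩) fun g hg hv hne => ?_
    obtain ⟨u, rfl, u1, u2⟩ := cross hv (yM m hm) (yF m hm)
      (hM.one g hg fun h => hne (hM.mt.eq h (hJ hm) hv (ym m hm)))
      (hF.one g hg fun h => yF m hm (mem_vs.2 ⟨g, h, hv⟩))
    rcases vF _ u2 with ⟨k, h1, -, h3⟩ | ⟨k, hk, e | e⟩
    · exact absurd (mem_vs.2 ⟨k, h1, h3⟩) u1
    · exact absurd (mem_vs.2 ⟨k, hJ hk, e ▸ hS.mem k (hJ hk)⟩) u1
    · exact ⟨k, hk, by rw [e]⟩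
  have h2 : ∀ k ∈ J, #(J.filter fun m => ({y m, w k} : Finset V) ∈ K) ≤ 2 := fun k hk => by
    have h3 := card_le_card_of_injOn (s := J.filter fun m => ({y m, w k} : Finset V) ∈ K)
      (t := (st K (w k)).erase {x k, w k}) (fun m => ({y m, w k} : Finset V)) (fun m hm => ?_)
      fun m hm n hn e => ?_
    · rw [card_erase_of_mem (mem_st.2 ⟨hS.adj k (hJ hk), by simp⟩)] at h3
      have := hK.deg (w k)
      omega
    · obtain ⟨a, b⟩ := mem_filter.1 hm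
      refine mem_erase.2 ⟨fun e => ?_, mem_st.2 ⟨b, by simp⟩⟩
      have : y m ∈ ({x k, w k} : Finset V) := e ▸ mem_insert_self _ _
      simp [yx m a k hk, yw m a k hk] at this
    · have a := (mem_filter.1 hm).1
      have b := (mem_filter.1 hn).1
      have e' : ({y m, w k} : Finset V) = {y n, w k} := e
      have : y m ∈ ({y n, w k} : Finset V) := e' ▸ mem_insert_self _ _
      simp only [mem_insert, mem_singleton, yw m a k hk, or_false] at this
      exact hM.mt.eq (hJ a) (hJ b) (ym m a) (this ▸ ym n b)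
  obtain ⟨p, p1, p2⟩ := (all_card_le_biUnion_card_iff_exists_injective
    fun m : J => J.filter fun k => ({y m, w k} : Finset V) ∈ K).1 fun s => by
    refine Nat.le_of_mul_le_mul_right (card_mul_le_card_mul
      (fun (m : J) k => ({y m, w k} : Finset V) ∈ K) (fun m hm => (h1 m m.2).trans
        (card_le_card fun k hk => mem_filter.2 ⟨mem_biUnion.2 ⟨m, hm, hk⟩, (mem_filter.1 hk).2⟩))
      fun k hk => ?_) two_pos
    obtain ⟨n, -, hn⟩ := mem_biUnion.1 hk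
    exact (card_le_card_of_injOn Subtype.val
      (fun m hm => mem_filter.2 ⟨m.2, (mem_filter.1 hm).2⟩) Subtype.val_injective.injOn).trans
      (h2 k (mem_filter.1 hn).1)
  refine ⟨y, fun m => if h : m ∈ J then p ⟨m, h⟩ else m, hy, fun m hm => ?_, fun m hm n hn e => ?_,
    fun m hm n _ => ?_⟩
  · simpa only [dif_pos hm] using mem_filter.1 (p2 ⟨m, hm⟩)
  · simp only [dif_pos (mem_coe.1 hm), dif_pos (mem_coe.1 hn)] at e
    exact congrArg Subtype.val (p1 e)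
  have wF : w m ∈ vs (Fl M J x w) := mem_vs.2 ⟨_, eF m hm, by simp⟩
  obtain ⟨k, hk, e⟩ := exists_mem_ne (two (J := J) (f := fun k => {y k, w m}) (hF.deg _ wF)
    (mem_st.2 ⟨hS.adj m (hJ hm), by simp⟩) fun g hg hv hne => by
    obtain ⟨u, rfl, u1, u2⟩ := cross hv wF (hS.out m (hJ hm))
      (hF.one g hg fun h => hne (hF.mt.eq h (eF m hm) hv (by simp)))
      (hM.one g hg fun h => hS.out m (hJ hm) (mem_vs.2 ⟨g, h, hv⟩))
    obtain ⟨k, k1, k2⟩ := mem_vs.1 u2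
    have hk : k ∈ J := by_contra fun h =>
      u1 (mem_vs.2 ⟨k, mem_union_left _ (mem_sdiff.2 ⟨k1, h⟩), k2⟩)
    rw [(hy k hk).2, mem_insert, mem_singleton] at k2
    rcases k2 with rfl | rfl
    · exact absurd (mem_vs.2 ⟨_, eF k hk, by simp⟩) u1
    · exact ⟨k, hk, pair_comm _ _⟩) n
  exact ⟨k, (mem_filter.1 hk).1, e, (mem_filter.1 hk).2⟩

end Pool.Agent.P.MP_75e851_co.R3
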