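import Pool.Agent.P.MP_75e851_co.R3.Iface

/-! Step FLM. -/

set_option autoImplicit false
set_option linter.unusedSectionVars false

namespace Pool.Agent.P.MP_75e851_co.R3

open Finset MvPolynomial

theorem p_FLM :
    S_FLM := by
  intro V _ K M J U x w hM hS hU hJ
  have hx : ∀ m ∈ M, x m ∈ vs M := fun m hm => mem_vs.2 ⟨m, hm, hS.mem m hm⟩
  have d1 : ∀ m ∈ M, ∀ n ∈ M, m ≠ n → Disjoint ({x m, w m} : Finset V) n := fun m hm n hn e => by
    rw [disjoint_insert_left, disjoint_singleton_left]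
    exact ⟨fun h => e (hM.eq hm hn (hS.mem m hm) h), fun h => hS.out m hm (mem_vs.2 ⟨n, hn, h⟩)⟩
  have d2 : ∀ m ∈ M, ∀ n ∈ M, m ≠ n →
      Disjoint ({x m, w m} : Finset V) {x n, w n} := fun m hm n hn e => by
    simp only [disjoint_insert_left, disjoint_singleton_left, mem_insert, mem_singleton, not_or]
    exact ⟨⟨fun h => e (hM.eq hm hn (hS.mem m hm) (h ▸ hS.mem n hn)),
      fun h => hS.out n hn (h ▸ hx m hm)⟩, fun h => hS.out m hm (h ▸ hx n hn),
      fun h => e (hS.inj hm hn h)⟩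
  have hi : Set.InjOn (fun m => ({x m, w m} : Finset V)) (J : Set (Finset V)) :=
    fun m hm n hn h => by
      by_contra e
      have := d2 m (hJ hm) n (hJ hn) e
      simp only at h
      rw [← h, disjoint_self] at this
      exact insert_ne_empty _ _ this
  have hd : Disjoint (M \ J) (J.image fun m => ({x m, w m} : Finset V)) := by
    rw [disjoint_right]
    intro e he he'
    obtain ⟨m, hm, rfl⟩ := mem_image.1 he
    exact hS.out m (hJ hm) (mem_vs.2 ⟨_, (mem_sdiff.1 he').1, by simp⟩)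
  refine ⟨⟨fun e he => ?_, fun e he f hf hne => ?_⟩, ?_, ?_⟩
  · rcases mem_union.1 he with h | h
    · have h1 := (mem_sdiff.1 h).1
      exact mem_del.2 ⟨hM.1 h1, disjoint_left.2 fun v a b =>
        disjoint_left.1 hU a (mem_vs.2 ⟨e, h1, b⟩)⟩
    · obtain ⟨m, hm, rfl⟩ := mem_image.1 h
      refine mem_del.2 ⟨hS.adj m (hJ hm), ?_⟩
      rw [disjoint_insert_right, disjoint_singleton_right]
      exact ⟨disjoint_right.1 hU (hx m (hJ hm)), hS.off m (hJ hm)⟩
  · rcases mem_union.1 he with h | h <;> rcases mem_union.1 hf with h' | h'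
    · exact hM.2 e (mem_sdiff.1 h).1 f (mem_sdiff.1 h').1 hne
    · obtain ⟨m, hm, rfl⟩ := mem_image.1 h'
      exact (d1 m (hJ hm) e (mem_sdiff.1 h).1 fun k => (mem_sdiff.1 h).2 (k ▸ hm)).symm
    · obtain ⟨m, hm, rfl⟩ := mem_image.1 h
      exact d1 m (hJ hm) f (mem_sdiff.1 h').1 fun k => (mem_sdiff.1 h').2 (k ▸ hm)
    · obtain ⟨m, hm, rfl⟩ := mem_image.1 h
      obtain ⟨n, hn, rfl⟩ := mem_image.1 h'
      exact d2 m (hJ hm) n (hJ hn) fun k => hne (by rw [k])
  · rw [Fl, card_union_of_disjoint hd, card_image_of_injOn hi, card_sdiff_add_card_eq_card hJ]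
  · rw [Fl, xs_union hd, mul_comm, xs, xs, prod_image hi]

end Pool.Agent.P.MP_75e851_co.R3
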