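import Pool.Agent.P.MP_75e851_co.R3.Iface

/-! Step FOUR. -/

set_option autoImplicit false
set_option linter.unusedSectionVars false

namespace Pool.Agent.P.MP_75e851_co.R3

open Finset MvPolynomial

namespace FOURx

theorem cnt {α : Type} (S : Finset α) (p1 p2 p3 p4 : α → Prop) [DecidablePred p1]
    [DecidablePred p2] [DecidablePred p3] [DecidablePred p4] (h12 : ∀ x ∈ S, p1 x → ¬ p2 x)
    (h34 : ∀ x ∈ S, p3 x → ¬ p4 x) :
    #(S.filter p1) + #(S.filter p2) + #(S.filter p3) + #(S.filter p4) =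
      #(S.filter fun x => p1 x ∨ p2 x ∨ p3 x ∨ p4 x) + #(S.filter fun x => p1 x ∧ p3 x) +
      #(S.filter fun x => p1 x ∧ p4 x) + #(S.filter fun x => p2 x ∧ p4 x) +
      #(S.filter fun x => p2 x ∧ p3 x) := by
  simp only [card_filter, ← sum_add_distrib]
  refine sum_congr rfl fun x hx => ?_
  have a := h12 x hx
  have b := h34 x hx
  by_cases h1 : p1 x <;> by_cases h2 : p2 x <;> by_cases h3 : p3 x <;> by_cases h4 : p4 x <;>
    simp_all

theorem gap {V : Type} [DecidableEq V] {H : Gr V} {W P : Finset V} {v : V} (hH : Cls H)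
    (hW : Wit H W) (hP : P ⊆ W) (hv : v ∈ P) :
    3 * #W + 2 * ein H P ≤ 2 * ein H W + 3 * #P + 1 := by
  have h1 := hH.d2 P ⟨v, hv⟩
  have h2 := hH.d3 P ⟨v, hv⟩
  have h3 := card_le_card hP
  rcases hW with h | h <;> omega

end FOURx

theorem p_FOUR :
    S_FOUR := by
  intro V _ H a a' c c' W1 W2 W3 W4 hH hM a1 c1 a2 c2 a3 c3 a4 c4 w1 w2 w3 w4 d12 d34
  have g1 := FOURx.gap hH w1 (inter_subset_left (s₂ := W3)) (mem_inter.2 ⟨a1, a3⟩)
  have g4 := FOURx.gap hH w4 (inter_subset_right (s₁ := W1)) (mem_inter.2 ⟨c1, c4⟩)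
  have g2 := FOURx.gap hH w2 (inter_subset_left (s₂ := W4)) (mem_inter.2 ⟨a2, a4⟩)
  have g3 := FOURx.gap hH w3 (inter_subset_right (s₁ := W2)) (mem_inter.2 ⟨c2, c3⟩)
  have hb := hM.big (W1 ∪ W2 ∪ W3 ∪ W4) (by simp [insert_subset_iff, a1, a2])
    (by simp [insert_subset_iff, c1, c2])
  have hv := FOURx.cnt (W1 ∪ W2 ∪ W3 ∪ W4) (· ∈ W1) (· ∈ W2) (· ∈ W3) (· ∈ W4)
    (fun x _ h => disjoint_left.1 d12 h) (fun x _ h => disjoint_left.1 d34 h)
  have f : ∀ (p : V → Prop) [DecidablePred p] (T : Finset V), (∀ x, x ∈ T ↔ p x ∧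
      (x ∈ W1 ∨ x ∈ W2 ∨ x ∈ W3 ∨ x ∈ W4)) → (W1 ∪ W2 ∪ W3 ∪ W4).filter p = T :=
    fun p _ T h => by
      ext x
      simp only [mem_filter, mem_union, h x, or_assoc, and_comm]
  rw [f _ W1 (by grind), f _ W2 (by grind), f _ W3 (by grind), f _ W4 (by grind),
    f _ (W1 ∪ W2 ∪ W3 ∪ W4) (by grind), f _ (W1 ∩ W3) (by grind), f _ (W1 ∩ W4) (by grind),
    f _ (W2 ∩ W4) (by grind), f _ (W2 ∩ W3) (by grind)] at hv
  have dj : ∀ W W' : Finset V, Disjoint W W' → ∀ e ∈ H, e ⊆ W → ¬ e ⊆ W' :=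
    fun W W' d e he h h' => by
      obtain ⟨x, hx⟩ := hH.toSub3.ne he
      exact disjoint_left.1 d (h hx) (h' hx)
  have he := FOURx.cnt H (· ⊆ W1) (· ⊆ W2) (· ⊆ W3) (· ⊆ W4) (dj _ _ d12) (dj _ _ d34)
  have hu : #(H.filter fun e => e ⊆ W1 ∨ e ⊆ W2 ∨ e ⊆ W3 ∨ e ⊆ W4) ≤
      ein H (W1 ∪ W2 ∪ W3 ∪ W4) := card_le_card fun e he => by
    simp only [mem_filter] at he ⊢
    refine ⟨he.1, fun x hx => ?_⟩
    simp only [mem_union]
    rcases he.2 with h | h | h | h <;> simp [h hx]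
  simp only [← subset_inter_iff] at he
  unfold ein at *
  omega

end Pool.Agent.P.MP_75e851_co.R3
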