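import Pool.Agent.P.MP_75e851_co.R3.Iface

/-! Step HALL. -/

set_option autoImplicit false
set_option linter.unusedSectionVars false

namespace Pool.Agent.P.MP_75e851_co.R3

open Finset MvPolynomial

namespace HALLx

variable {V : Type} [DecidableEq V] {ι : Type} [DecidableEq ι]

/-- the parity of the number of edges of class `j` -/
def nn (E : ι → Gr V) (s : Gr V) (j : ι) : ZMod 2 := (#(s ∩ E j) : ZMod 2)

theorem mm (a : ZMod 2) : a * (a + 1) = 0 := by
  revert a; decide

theorem nn_erase (E : ι → Gr V) (hd : ∀ i j, i ≠ j → Disjoint (E i) (E j)) {s : Gr V}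
    {e : Finset V} {k : ι} (he : e ∈ s ∩ E k) (j : ι) :
    nn E (s.erase e) j = nn E s j + if j = k then 1 else 0 := by
  unfold nn
  by_cases h : j = k
  · subst h
    rw [if_pos rfl, erase_inter, ← card_erase_add_one he]
    push_cast
    rw [add_assoc, CharTwo.add_self_eq_zero, add_zero]
  · have : e ∉ s ∩ E j := fun l =>
      disjoint_left.1 (hd j k h) (mem_inter.1 l).2 (mem_inter.1 he).2
    rw [if_neg h, add_zero, erase_inter, erase_eq_of_notMem this]

theorem key (E : ι → Gr V) (hd : ∀ i j, i ≠ j → Disjoint (E i) (E j)) {S : Finset ι} {s : Gr V}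
    (hs : s ⊆ S.biUnion E) {i : ι} (hi : i ∈ S) :
    ∑ e ∈ s, ∏ j ∈ S.erase i, nn E (s.erase e) j = ∏ j ∈ S, nn E s j := by
  have h1 : s = S.biUnion fun k => s ∩ E k := by
    ext e
    simp only [mem_biUnion, mem_inter]
    constructor
    · intro h
      obtain ⟨k, k1, k2⟩ := mem_biUnion.1 (hs h)
      exact ⟨k, k1, h, k2⟩
    · rintro ⟨_, _, h, _⟩; exact h
  have h2 : ∀ F : Finset V → ZMod 2, ∑ e ∈ s, F e = ∑ k ∈ S, ∑ e ∈ s ∩ E k, F e := by
    intro F
    conv_lhs => rw [h1]
    rw [sum_biUnion]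
    intro a _ b _ hab
    exact (hd a b hab).mono inter_subset_right inter_subset_right
  have h3 : ∀ k, ∑ e ∈ s ∩ E k, ∏ j ∈ S.erase i, nn E (s.erase e) j =
      nn E s k * ∏ j ∈ S.erase i, (nn E s j + if j = k then 1 else 0) := by
    intro k
    rw [sum_congr rfl fun e he => prod_congr rfl fun j _ => nn_erase E hd he j, sum_const,
      nsmul_eq_mul]
    rfl
  rw [h2, sum_congr rfl fun k _ => h3 k, sum_eq_single_of_mem i hi, ← mul_prod_erase S _ hi]
  · congr 1
    exact prod_congr rfl fun j hj => by rw [if_neg (ne_of_mem_erase hj), add_zero]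
  · intro k k1 k2
    rw [← mul_prod_erase _ _ (mem_erase.2 ⟨k2, k1⟩), if_pos rfl, ← mul_assoc, mm, zero_mul]

end HALLx

theorem p_HALL (hHCH : S_HCH) :
    S_HALL := by
  intro V _ ι _ _ E hd hA
  obtain ⟨c, c0, hc⟩ := hHCH V ι E (Fintype.card ι) hA
  have hc' := fun S : Finset ι => hc S (card_le_univ S)
  choose l hl using fun S : Finset ι =>
    exists_lin (M := ZMod 2) fun s : Gr V => ∏ j ∈ S, HALLx.nn E s j
  have h1 : ∀ (S : Finset ι) (i : ι), i ∈ S → l (S.erase i) (D (c S)) = l S (c S) := by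
    intro S i hi
    have := Ch.map_mem (L := ⊥) ((l (S.erase i)) ∘ₗ
      (D : Derivation (ZMod 2) (R (Finset V)) _).toLinearMap - l S) (fun s a _ => ?_) (hc' S).1
    · exact sub_eq_zero.1 this
    · change l (S.erase i) (D (xs s)) - l S (xs s) = 0
      rw [D_xs, map_sum, sum_congr rfl fun e _ => hl _ _, HALLx.key E hd a.1 hi, hl, sub_self]
  have h2 : ∀ (S : Finset ι) (i j : ι), j ∈ S → j ≠ i → l (S.erase i) (c (S.erase j)) = 0 := by
    intro S i j hj hji
    refine Ch.map_mem (L := ⊥) (l (S.erase i)) (fun s a _ => ?_) (hc' (S.erase j)).1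
    change l (S.erase i) (xs s) = 0
    rw [hl]
    refine prod_eq_zero (mem_erase.2 ⟨hji, hj⟩) ?_
    have : s ∩ E j = ∅ := by
      refine eq_empty_of_forall_notMem fun e he => ?_
      obtain ⟨k, k1, k2⟩ := mem_biUnion.1 (a.1 (mem_inter.1 he).1)
      exact disjoint_left.1 (hd k j (ne_of_mem_erase k1)) k2 (mem_inter.1 he).2
    simp [HALLx.nn, this]
  have h3 : ∀ S : Finset ι, l S (c S) = 1 := by
    intro S
    induction S using Finset.induction_on with
    | empty => rw [c0, ← xs_empty, hl, prod_empty]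
    | insert i S hi ih =>
      rw [← h1 _ i (mem_insert_self i S), (hc' _).2, map_sum,
        sum_eq_single_of_mem i (mem_insert_self i S) fun j a b => h2 _ i j a b,
        erase_insert hi, ih]
  have h4 : ∃ s, Mt ((univ : Finset ι).biUnion E) s ∧ l univ (xs s) ≠ 0 := by
    by_contra h
    push Not at h
    have : l univ (c univ) = 0 :=
      Ch.map_mem (L := ⊥) (l univ) (fun s a _ => h s a) (hc' univ).1
    rw [h3] at this
    exact one_ne_zero this
  obtain ⟨s, s1, s2⟩ := h4
  rw [hl] at s2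
  have h5 : ∀ j, ∃ e, e ∈ s ∩ E j := by
    intro j
    by_contra h
    push Not at h
    refine s2 (prod_eq_zero (mem_univ j) ?_)
    simp [HALLx.nn, eq_empty_of_forall_notMem h]
  choose f hf using h5
  refine ⟨f, fun i => (mem_inter.1 (hf i)).2, fun i j hij => ?_⟩
  refine s1.2 _ (mem_inter.1 (hf i)).1 _ (mem_inter.1 (hf j)).1 fun h => ?_
  exact disjoint_left.1 (hd i j hij) (mem_inter.1 (hf i)).2 (h ▸ (mem_inter.1 (hf j)).2)

end Pool.Agent.P.MP_75e851_co.R3
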