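import Pool.Agent.P.MP_75e851_co.R3.Iface

/-! Step JOIN. -/

set_option autoImplicit false
set_option linter.unusedSectionVars false

namespace Pool.Agent.P.MP_75e851_co.R3

open Finset MvPolynomial

namespace JOINx

variable {V : Type} [DecidableEq V]

theorem mt_union {P Q s t : Gr V} (h : ∀ e ∈ P, ∀ f ∈ Q, Disjoint e f) (hs : Mt P s)
    (ht : Mt Q t) : Mt (P ∪ Q) (s ∪ t) := by
  refine ⟨union_subset_union hs.1 ht.1, fun e he f hf hn => ?_⟩
  rcases mem_union.1 he with a | a <;> rcases mem_union.1 hf with b | b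
  · exact hs.2 e a f b hn
  · exact h e (hs.1 a) f (ht.1 b)
  · exact (h f (hs.1 b) e (ht.1 a)).symm
  · exact ht.2 e a f b hn

theorem mt_left {P Q u : Gr V} (hu : Mt (P ∪ Q) u) : Mt P (u ∩ P) :=
  (hu.sub inter_subset_left).of_sub inter_subset_right

theorem mt_right {P Q u : Gr V} (hu : Mt (P ∪ Q) u) : Mt Q (u \ P) :=
  (hu.sub sdiff_subset).of_sub fun _ he =>
    (mem_union.1 (hu.1 (mem_sdiff.1 he).1)).resolve_left (mem_sdiff.1 he).2

theorem prod_mem {P Q t : Gr V} {i : ℕ} {p : R (Finset V)} (hd : Disjoint P Q)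
    (h : ∀ e ∈ P, ∀ f ∈ Q, Disjoint e f) (hp : p ∈ Ch P i) (ht : Mt Q t) :
    p * xs t ∈ Ch (P ∪ Q) (i + #t) :=
  Ch.map_mem (LinearMap.mulRight (ZMod 2) (xs t)) (fun s a b => by
    have k : Disjoint s t := hd.mono a.1 ht.1
    change xs s * xs t ∈ _
    rw [← xs_union k]
    exact xs_mem (mt_union h a ht) (by rw [card_union_of_disjoint k, b])) hp

theorem xs_split (u P : Gr V) : xs u = xs (u ∩ P) * xs (u \ P) := by
  rw [← xs_union (disjoint_sdiff_inter u P).symm, union_comm, sdiff_union_inter]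

theorem key (P : Gr V) (g : Gr V → R (Finset V)) (σ : R (Finset V) →ₗ[ZMod 2] R (Finset V))
    (hσ : ∀ u, σ (xs u) = g (u ∩ P) * xs (u \ P)) (u : Gr V) :
    D (σ (xs u)) + σ (D (xs u)) =
      (D (g (u ∩ P)) + ∑ e ∈ u ∩ P, g ((u ∩ P).erase e)) * xs (u \ P) := by
  have h1 : ∑ e ∈ u ∩ P, σ (xs (u.erase e)) =
      (∑ e ∈ u ∩ P, g ((u ∩ P).erase e)) * xs (u \ P) := by
    rw [sum_mul]
    refine sum_congr rfl fun e he => ?_
    have a : u.erase e ∩ P = (u ∩ P).erase e := erase_inter _ _ _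
    have b : u.erase e \ P = u \ P := by
      ext f
      simp only [mem_sdiff, mem_erase]
      exact ⟨fun k => ⟨k.1.2, k.2⟩, fun k => ⟨⟨fun l => k.2 (l ▸ (mem_inter.1 he).2), k.1⟩, k.2⟩⟩
    rw [hσ, a, b]
  have h2 : ∑ e ∈ u \ P, σ (xs (u.erase e)) = g (u ∩ P) * D (xs (u \ P)) := by
    rw [D_xs, mul_sum]
    refine sum_congr rfl fun e he => ?_
    have a : u.erase e ∩ P = u ∩ P := by
      ext f
      simp only [mem_inter, mem_erase]
      exact ⟨fun k => ⟨k.1.2, k.2⟩, fun k => ⟨⟨fun l => (mem_sdiff.1 he).2 (l ▸ k.2), k.1⟩, k.2⟩⟩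
    have b : u.erase e \ P = (u \ P).erase e := erase_sdiff_comm _ _ _
    rw [hσ, a, b]
  have h3 : σ (D (xs u)) = ∑ e ∈ u \ P, σ (xs (u.erase e)) + ∑ e ∈ u ∩ P, σ (xs (u.erase e)) := by
    rw [D_xs, map_sum, ← sum_union (disjoint_sdiff_inter u P), sdiff_union_inter]
  rw [h3, h1, h2, hσ, D_mul]
  linear_combination (g (u ∩ P) * D (xs (u \ P))) * two_z

theorem sigma_mem {P Q : Gr V} {m : ℕ} {z : R (Finset V)} (hd : Disjoint P Q)
    (h : ∀ e ∈ P, ∀ f ∈ Q, Disjoint e f) (g : Gr V → R (Finset V))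
    (hg : ∀ s, Mt P s → g s ∈ Ch P (#s + 1)) (σ : R (Finset V) →ₗ[ZMod 2] R (Finset V))
    (hσ : ∀ u, σ (xs u) = g (u ∩ P) * xs (u \ P)) (hz : z ∈ Ch (P ∪ Q) m) :
    σ z ∈ Ch (P ∪ Q) (m + 1) :=
  Ch.map_mem σ (fun u a b => by
    have k := prod_mem hd h (hg _ (mt_left a)) (mt_right a)
    have l := card_inter_add_card_sdiff u P
    rw [hσ]
    rwa [show #(u ∩ P) + 1 + #(u \ P) = m + 1 by omega] at k) hz

end JOINx

open JOINx in
theorem p_JOIN (hCON : S_CON) (hJOINA : S_JOINA) :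
    S_JOIN := by
  intro V _ B Y a k m hd h hB hY hm z hz h0
  obtain ⟨g, hg⟩ := hCON V Y k hY
  obtain ⟨σ, hσ⟩ := exists_lin fun u : Gr V => g (u ∩ Y) * xs (u \ Y)
  have h' : ∀ e ∈ Y, ∀ f ∈ B, Disjoint e f := fun e he f hf => (h f hf e he).symm
  have h1 : σ z ∈ Ch (B ∪ Y) (m + 1) := by
    rw [union_comm] at hz ⊢
    exact sigma_mem hd.symm h' g (fun s k => (hg s k).1) σ hσ hz
  have h2 := Ch.map_mem (L := Submodule.span (ZMod 2)
      {p | ∃ s, Mt (B ∪ Y) s ∧ #s = m ∧ #(s ∩ B) < a ∧ p = xs s})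
    (LinearMap.id + ((D : Derivation (ZMod 2) (R (Finset V)) _).toLinearMap ∘ₗ σ +
      σ ∘ₗ (D : Derivation (ZMod 2) (R (Finset V)) _).toLinearMap)) (fun u hu hc => by
    change xs u + (D (σ (xs u)) + σ (D (xs u))) ∈ _
    have hu' : Mt (Y ∪ B) u := by rwa [union_comm]
    have hl := mt_left hu'
    have hr := mt_right hu'
    have hcard := card_inter_add_card_sdiff u Y
    rw [key Y g σ hσ]
    by_cases hk : #(u ∩ Y) < k
    · rw [(hg _ hl).2.1 hk, add_assoc, aa, add_zero, ← xs_split, aa]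
      exact Submodule.zero_mem _
    · have face : ∀ s, Mt Y s → #s = #(u ∩ Y) → xs s * xs (u \ Y) ∈ Submodule.span (ZMod 2)
          {p | ∃ s, Mt (B ∪ Y) s ∧ #s = m ∧ #(s ∩ B) < a ∧ p = xs s} := by
        intro s s1 s2
        have d : Disjoint s (u \ Y) := hd.symm.mono s1.1 hr.1
        refine Submodule.subset_span ⟨s ∪ u \ Y, ?_, ?_, ?_, (xs_union d).symm⟩
        · rw [union_comm B]; exact mt_union h' s1 hr
        · rw [card_union_of_disjoint d]; omega
        · have : (s ∪ u \ Y) ∩ B ⊆ u \ Y := fun e he =>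
            (mem_union.1 (mem_inter.1 he).1).resolve_left fun l =>
              disjoint_left.1 hd (mem_inter.1 he).2 (s1.1 l)
          have := card_le_card this
          omega
      rw [(hg _ hl).2.2 (not_lt.1 hk), map_zero, zero_add, sum_mul]
      refine Submodule.add_mem _ ?_ (Submodule.sum_mem _ fun e he => ?_)
      · rw [xs_split u Y]; exact face _ hl rfl
      · have c : #((u ∩ Y).erase e) + 1 = #(u ∩ Y) := card_erase_add_one he
        exact Ch.map_mem (LinearMap.mulRight (ZMod 2) (xs (u \ Y)))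
          (fun s s1 s2 => face s s1 (s2.trans c)) (hg _ (hl.sub (erase_subset _ _))).1) hz
  change z + (D (σ z) + σ (D z)) ∈ _ at h2
  rw [h0, map_zero, add_zero] at h2
  exact Bd.of_add (hJOINA V B Y a m _ hd h hB h2 (by rw [map_add, h0, DD, add_zero]))
    (mem_Bd.2 ⟨σ z, h1, rfl⟩)

end Pool.Agent.P.MP_75e851_co.R3
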