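import Pool.Agent.P.MP_75e851_co.R3.Iface

/-! Step JOINA. -/

set_option autoImplicit false
set_option linter.unusedSectionVars false

namespace Pool.Agent.P.MP_75e851_co.R3

open Finset MvPolynomial

namespace JOINAx

variable {V : Type} [DecidableEq V]

theorem mt_union {P Q s t : Gr V} (h : ∀ e ∈ P, ∀ f ∈ Q, Disjoint e f) (hs : Mt P s)
    (ht : Mt Q t) : Mt (P ∪ Q) (s ∪ t) := by
  refine ⟨union_subset_union hs.1 ht.1, fun e he f hf hn => ?_⟩
  rcases mem_union.1 he with a | a <;> rcases mem_union.1 hf with b | b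
  · exact hs.2 e a f b hn
  · exact h e (hs.1 a) f (ht.1 b)
  · exact (h f (hs.1 b) e (ht.1 a)).symm
  · exact ht.2 e a f b hn

theorem mt_left {P Q u : Gr V} (hu : Mt (P ∪ Q) u) : Mt P (u ∩ P) :=
  (hu.sub inter_subset_left).of_sub inter_subset_right

theorem mt_right {P Q u : Gr V} (hu : Mt (P ∪ Q) u) : Mt Q (u \ P) :=
  (hu.sub sdiff_subset).of_sub fun _ he =>
    (mem_union.1 (hu.1 (mem_sdiff.1 he).1)).resolve_left (mem_sdiff.1 he).2

theorem prod_mem {P Q t : Gr V} {i : ℕ} {p : R (Finset V)} (hd : Disjoint P Q)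
    (h : ∀ e ∈ P, ∀ f ∈ Q, Disjoint e f) (hp : p ∈ Ch P i) (ht : Mt Q t) :
    p * xs t ∈ Ch (P ∪ Q) (i + #t) :=
  Ch.map_mem (LinearMap.mulRight (ZMod 2) (xs t)) (fun s a b => by
    have k : Disjoint s t := hd.mono a.1 ht.1
    change xs s * xs t ∈ _
    rw [← xs_union k]
    exact xs_mem (mt_union h a ht) (by rw [card_union_of_disjoint k, b])) hp

theorem xs_split (u P : Gr V) : xs u = xs (u ∩ P) * xs (u \ P) := by
  rw [← xs_union (disjoint_sdiff_inter u P).symm, union_comm, sdiff_union_inter]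

theorem key (P : Gr V) (g : Gr V → R (Finset V)) (σ : R (Finset V) →ₗ[ZMod 2] R (Finset V))
    (hσ : ∀ u, σ (xs u) = g (u ∩ P) * xs (u \ P)) (u : Gr V) :
    D (σ (xs u)) + σ (D (xs u)) =
      (D (g (u ∩ P)) + ∑ e ∈ u ∩ P, g ((u ∩ P).erase e)) * xs (u \ P) := by
  have h1 : ∑ e ∈ u ∩ P, σ (xs (u.erase e)) =
      (∑ e ∈ u ∩ P, g ((u ∩ P).erase e)) * xs (u \ P) := by
    rw [sum_mul]
    refine sum_congr rfl fun e he => ?_
    have a : u.erase e ∩ P = (u ∩ P).erase e := erase_inter _ _ _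
    have b : u.erase e \ P = u \ P := by
      ext f
      simp only [mem_sdiff, mem_erase]
      exact ⟨fun k => ⟨k.1.2, k.2⟩, fun k => ⟨⟨fun l => k.2 (l ▸ (mem_inter.1 he).2), k.1⟩, k.2⟩⟩
    rw [hσ, a, b]
  have h2 : ∑ e ∈ u \ P, σ (xs (u.erase e)) = g (u ∩ P) * D (xs (u \ P)) := by
    rw [D_xs, mul_sum]
    refine sum_congr rfl fun e he => ?_
    have a : u.erase e ∩ P = u ∩ P := by
      ext f
      simp only [mem_inter, mem_erase]
      exact ⟨fun k => ⟨k.1.2, k.2⟩, fun k => ⟨⟨fun l => (mem_sdiff.1 he).2 (l ▸ k.2), k.1⟩, k.2⟩⟩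
    have b : u.erase e \ P = (u \ P).erase e := erase_sdiff_comm _ _ _
    rw [hσ, a, b]
  have h3 : σ (D (xs u)) = ∑ e ∈ u \ P, σ (xs (u.erase e)) + ∑ e ∈ u ∩ P, σ (xs (u.erase e)) := by
    rw [D_xs, map_sum, ← sum_union (disjoint_sdiff_inter u P), sdiff_union_inter]
  rw [h3, h1, h2, hσ, D_mul]
  linear_combination (g (u ∩ P) * D (xs (u \ P))) * two_z

theorem sigma_mem {P Q : Gr V} {m : ℕ} {z : R (Finset V)} (hd : Disjoint P Q)
    (h : ∀ e ∈ P, ∀ f ∈ Q, Disjoint e f) (g : Gr V → R (Finset V))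
    (hg : ∀ s, Mt P s → g s ∈ Ch P (#s + 1)) (σ : R (Finset V) →ₗ[ZMod 2] R (Finset V))
    (hσ : ∀ u, σ (xs u) = g (u ∩ P) * xs (u \ P)) (hz : z ∈ Ch (P ∪ Q) m) :
    σ z ∈ Ch (P ∪ Q) (m + 1) :=
  Ch.map_mem σ (fun u a b => by
    have k := prod_mem hd h (hg _ (mt_left a)) (mt_right a)
    have l := card_inter_add_card_sdiff u P
    rw [hσ]
    rwa [show #(u ∩ P) + 1 + #(u \ P) = m + 1 by omega] at k) hz

end JOINAx

open JOINAx in
theorem p_JOINA (hCON : S_CON) :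
    S_JOINA := by
  intro V _ B Y a m z hd h hB hz h0
  obtain ⟨g, hg⟩ := hCON V B a hB
  obtain ⟨σ, hσ⟩ := exists_lin fun u : Gr V => g (u ∩ B) * xs (u \ B)
  have h1 : z ∈ Ch (B ∪ Y) m :=
    Submodule.span_mono (by rintro _ ⟨s, a, b, -, c⟩; exact ⟨s, a, b, c⟩) hz
  have h2 : D (σ z) + σ (D z) = z := by
    clear h0 h1
    induction hz using Submodule.span_induction with
    | mem p hp =>
      obtain ⟨u, a, -, c, rfl⟩ := hp
      rw [key B g σ hσ, (hg _ (mt_left a)).2.1 c, add_assoc, aa, add_zero, ← xs_split]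
    | zero => simp
    | add p q _ _ hp hq =>
      simp only [map_add]
      linear_combination hp + hq
    | smul c p _ hp =>
      rw [map_smul, Derivation.map_smul, Derivation.map_smul, map_smul, ← smul_add, hp]
  rw [h0, map_zero, add_zero] at h2
  exact mem_Bd.2 ⟨σ z, sigma_mem hd h g (fun s k => (hg s k).1) σ hσ h1, h2⟩

end Pool.Agent.P.MP_75e851_co.R3
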