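import Pool.Agent.P.MP_75e851_co.R3.Iface

/-! Step NOWIT. -/

set_option autoImplicit false
set_option linter.unusedSectionVars false

namespace Pool.Agent.P.MP_75e851_co.R3

open Finset MvPolynomial

theorem p_NOWIT :
    S_NOWIT := by
  intro V _ H a c hH hac ha hc hW
  have hin : ∀ W : Finset V, ein (insert {a, c} H) W = ein H W ∨
      (¬ Wit H W ∧ ein (insert {a, c} H) W ≤ ein H W + 1) := by
    intro W
    unfold ein
    rw [filter_insert]
    split_ifs with h
    · exact Or.inr ⟨hW W (h (by simp)) (h (by simp)), card_insert_le _ _⟩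
    · exact Or.inl rfl
  refine ⟨fun h => hW {a, c} (by simp) (by simp) (Or.inr ?_), ⟨fun e he => ?_, fun v => ?_⟩,
    fun W h => ?_, fun W h h4 => ?_⟩
  · have : 0 < ein H {a, c} := card_pos.2 ⟨{a, c}, mem_filter.2 ⟨h, Subset.rfl⟩⟩
    rw [card_pair hac]
    omega
  · rcases mem_insert.1 he with rfl | he
    · exact card_pair hac
    · exact hH.two e he
  · have h3 := hH.deg v
    unfold st at ha hc h3 ⊢
    rw [filter_insert]
    split_ifs with h
    · refine (card_insert_le _ _).trans ?_
      rcases mem_insert.1 h with rfl | h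
      · omega
      · rw [mem_singleton.1 h]; omega
    · exact h3
  · have := hH.d2 W h
    rcases hin W with k | ⟨k1, k2⟩
    · omega
    · unfold Wit at k1; omega
  · have := hH.d3 W h h4
    rcases hin W with k | ⟨k1, k2⟩
    · omega
    · unfold Wit at k1; omega

end Pool.Agent.P.MP_75e851_co.R3
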