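import Pool.Agent.P.MP_75e851_co.R3.Iface

/-! Step PAIR. -/

set_option autoImplicit false
set_option linter.unusedSectionVars false

namespace Pool.Agent.P.MP_75e851_co.R3

open Finset MvPolynomial

theorem p_PAIR (hNOWIT : S_NOWIT) (hXDIS : S_XDIS) (hFOUR : S_FOUR) :
    S_PAIR := by
  intro V _ H A C hH hM
  by_contra hn
  have key : ∀ a ∈ A, ∀ c ∈ C, a ≠ c → ∃ W : Finset V, (a ∈ W ∧ c ∈ W ∧ Wit H W) ∧
      ∀ Z : Finset V, a ∈ Z → c ∈ Z → Wit H Z → #W ≤ #Z := by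
    intro a ha c hc hac
    have h1 : #(st H a) ≤ 2 := by
      have := hM.deg a
      rw [if_pos ha] at this
      omega
    have h2 : #(st H c) ≤ 2 := by
      have := hM.deg c
      rw [if_pos hc] at this
      omega
    have h3 : ∃ W : Finset V, a ∈ W ∧ c ∈ W ∧ Wit H W := by
      by_contra h4
      exact hn ⟨a, ha, c, hc, hac,
        hNOWIT V H a c hH hac h1 h2 fun W h5 h6 h7 => h4 ⟨W, h5, h6, h7⟩⟩
    obtain ⟨W, h5, h6⟩ := exists_minimalFor_of_wellFoundedLT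
      (fun W : Finset V => a ∈ W ∧ c ∈ W ∧ Wit H W) (fun W => #W) h3
    refine ⟨W, h5, fun Z h7 h8 h9 => ?_⟩
    by_contra h10
    exact h10 (h6 ⟨h7, h8, h9⟩ (not_le.1 h10).le)
  obtain ⟨a, a', haa, rfl⟩ := card_eq_two.1 hM.cA
  have dis : ∀ x y : V, C = {x, y} → a ≠ x → a' ≠ y → ∃ W W' : Finset V, a ∈ W ∧ x ∈ W ∧
      a' ∈ W' ∧ y ∈ W' ∧ Wit H W ∧ Wit H W' ∧ Disjoint W W' := by
    rintro x y rfl h1 h2
    obtain ⟨W, ⟨h3, h4, h5⟩, h6⟩ := key a (by simp) x (by simp) h1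
    obtain ⟨W', ⟨h7, h8, h9⟩, h10⟩ := key a' (by simp) y (by simp) h2
    exact ⟨W, W', h3, h4, h7, h8, h5, h9,
      hXDIS V H a a' x y W W' hH hM h1 h2 h3 h4 h7 h8 h5 h9 h6 h10⟩
  obtain ⟨c, c', hcc, rfl⟩ := card_eq_two.1 hM.cC
  by_cases h1 : a = c
  · subst h1
    obtain ⟨W, W', h3, -, -, h4, -, -, h5⟩ := dis c' a (pair_comm _ _) hcc haa.symm
    exact disjoint_left.1 h5 h3 h4
  by_cases h2 : a' = c'
  · subst h2
    obtain ⟨W, W', -, h3, h4, -, -, -, h5⟩ := dis a' c (pair_comm _ _) haa hcc.symm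
    exact disjoint_left.1 h5 h3 h4
  obtain ⟨W1, W2, p1, p2, p3, p4, p5, p6, p7⟩ := dis c c' rfl h1 h2
  by_cases h3 : a = c'
  · subst h3
    exact disjoint_left.1 p7 p1 p4
  by_cases h4 : a' = c
  · subst h4
    exact disjoint_left.1 p7 p2 p3
  obtain ⟨W3, W4, r1, r2, r3, r4, r5, r6, r7⟩ := dis c' c (pair_comm _ _) h3 h4
  exact hFOUR V H a a' c c' W1 W2 W3 W4 hH hM p1 p2 p3 p4 r1 r2 r3 r4 p5 p6 r5 r6 p7 r7

end Pool.Agent.P.MP_75e851_co.R3
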