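import Pool.Agent.P.MP_75e851_co.R3.Iface

/-! Step PURGE. -/

set_option autoImplicit false
set_option linter.unusedSectionVars false

namespace Pool.Agent.P.MP_75e851_co.R3

open Finset MvPolynomial

theorem p_PURGE (hZ : S_Z) (hDIM : S_DIM) :
    S_PURGE := by
  intro V _ K H n L y hK hH hn hT hy h0 h
  have h1 : y ∈ (L ⊓ LinearMap.ker (D : Derivation (ZMod 2) (R (Finset V)) _).toLinearMap) ⊔
      Nm K n := Ch.le (fun s a b => by
    by_cases e : Ext K s
    · exact Submodule.mem_sup_right (xs_memN (a.mono hH) b e)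
    subst b
    obtain ⟨U, u1, u2, u3⟩ := h s a.1 ((hDIM V K s hK.toSub3 (a.mono hH) e).2 hn)
    obtain ⟨z, z1, z2, z3⟩ := hZ V K s U hK (a.mono hH) e hn u1 u2
    exact Submodule.mem_sup.2 ⟨z, ⟨u3 z z1 z2, z2⟩, _, z3, by rw [← add_assoc, aa, zero_add]⟩) hy
  obtain ⟨w, ⟨w1, w2⟩, v, v1, rfl⟩ := Submodule.mem_sup.1 h1
  refine ⟨w, w1, ?_⟩
  rw [add_right_comm, aa, zero_add]
  rw [map_add, show D w = 0 from w2, zero_add] at h0
  exact hT v v1 h0

end Pool.Agent.P.MP_75e851_co.R3
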