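import Pool.Agent.P.MP_75e851_co.R3.Iface

/-! Step RED. -/

set_option autoImplicit false
set_option linter.unusedSectionVars false

namespace Pool.Agent.P.MP_75e851_co.R3

open Finset MvPolynomial

theorem p_RED :
    S_RED := by
  intro V _ G s t u m z hT hz h0 hb hd
  have hs : ∀ h ∈ G, s ∈ h → h = {s, t} ∨ h = {s, u} := fun h h1 h2 => by
    have : h ∈ st G s := mem_st.2 ⟨h1, h2⟩
    rw [hT.st] at this
    simpa using this
  have hst : ({s, t} : Finset V) ∈ G :=
    (mem_st.1 (show ({s, t} : Finset V) ∈ st G s by rw [hT.st]; simp)).1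
  have hsu : ({s, u} : Finset V) ∈ G :=
    (mem_st.1 (show ({s, u} : Finset V) ∈ st G s by rw [hT.st]; simp)).1
  have n1 : s ≠ t := hT.sub.adj_ne hst
  have n2 : s ≠ u := hT.sub.adj_ne hsu
  have n3 : t ≠ u := hT.ne
  have hu : u ∉ ({s, t} : Finset V) := by simp [n2.symm, n3.symm]
  have hne : ({s, t} : Finset V) ≠ {s, u} := fun h => hu (h ▸ by simp)
  obtain ⟨y1, a1, a2, a3⟩ := star (F := (st G t).erase {s, t}) (t := t) (erase_subset _ _) hz h0
    fun f hf => hb f (mem_of_mem_erase hf)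
  set G1 := G \ (st G t).erase {s, t} with hG1
  have g1 : G1 ⊆ G := sdiff_subset
  have ht : ∀ h ∈ G1, t ∈ h → h = {s, t} := fun h h1 h2 => by
    by_contra k
    exact (mem_sdiff.1 h1).2 (mem_erase.2 ⟨k, mem_st.2 ⟨g1 h1, h2⟩⟩)
  have hst1 : ({s, t} : Finset V) ∈ G1 := mem_sdiff.2 ⟨hst, notMem_erase _ _⟩
  have dj : ∀ h ∈ G1, h ≠ {s, t} → h ≠ {s, u} → Disjoint ({s, t} : Finset V) h :=
    fun h h1 h2 h3 => by
      rw [disjoint_left]
      intro a ha hh
      rcases mem_insert.1 ha with rfl | ha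
      · rcases hs h (g1 h1) hh with k | k
        · exact h2 k
        · exact h3 k
      · rw [mem_singleton.1 ha] at hh
        exact h2 (ht h h1 hh)
  obtain ⟨y2, b1, b2, b3⟩ := star (G := G1) (F := (st G1 u).erase {s, u}) (t := u)
    (erase_subset _ _) a1 a2 fun g hg => by
      obtain ⟨c1, c2⟩ := mem_erase.1 hg
      obtain ⟨c2, c3⟩ := mem_st.1 c2
      have c4 : g ≠ {s, t} := fun k => hu (k ▸ c3)
      refine cone (f := {s, t}) (mem_del.2 ⟨hst1, (dj g c2 c4 c1).symm⟩) (by simp)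
        (fun h h1 h2 => dj h (mem_del.1 h1).1 h2 fun k => ?_) _ (pd_mem g a1) ?_
      · exact disjoint_left.1 (mem_del.1 h1).2 c3 (k ▸ by simp)
      · rw [← pd_D, a2, map_zero]
  set G2 := G1 \ (st G1 u).erase {s, u} with hG2
  have g2 : G2 ⊆ G1 := sdiff_subset
  have hst2 : ({s, t} : Finset V) ∈ G2.erase {s, u} :=
    mem_erase.2 ⟨hne, mem_sdiff.2 ⟨hst1, fun k => hu (mem_st.1 (mem_of_mem_erase k)).2⟩⟩
  have y0 : D (pderiv ({s, u} : Finset V) y2) = 0 := by rw [← pd_D, b2, map_zero]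
  have ym := pd_mem {s, u} b1
  set y := pderiv ({s, u} : Finset V) y2 with hy
  have key : ∀ h ∈ del {s, u} G2, h ≠ {s, u} ∧ Disjoint ({s, t} : Finset V) h := fun h hh => by
    obtain ⟨c1, c2⟩ := mem_del.1 hh
    have c3 : s ∉ h := disjoint_left.1 c2 (by simp)
    have c4 : h ≠ {s, u} := fun k => c3 (k ▸ by simp)
    exact ⟨c4, dj h (g2 c1) (fun k => c3 (k ▸ by simp)) c4⟩
  have dead := mem_Dead.1 (hd y (Ch.mono (fun h hh => by
    obtain ⟨c1, c2⟩ := mem_del.1 hh
    refine mem_del.2 ⟨g1 (g2 c1), disjoint_left.2 fun a ha k => ?_⟩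
    simp only [mem_insert, mem_singleton] at ha
    rcases ha with rfl | rfl | rfl
    · exact disjoint_left.1 c2 (by simp) k
    · exact disjoint_left.1 (key h hh).2 (by simp) k
    · exact disjoint_left.1 c2 (by simp) k) ym) y0)
  have w1 := rest_mem {s, u} b1
  have w2 : X ({s, t} : Finset V) * y ∈ Ch (G2.erase {s, u}) (m + 1) :=
    X_mul_mem hst2 (by simp) (Ch.mono (fun h hh => mem_del.2
      ⟨mem_erase.2 ⟨(key h hh).1, (mem_del.1 hh).1⟩, (key h hh).2⟩) ym)
  have w3 : y2 + (X ({s, t} : Finset V) + X ({s, u} : Finset V)) * y ∈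
      Bd (G2.erase {s, u}) (m + 1) := by
    refine cone (f := {s, t}) hst2 (by simp) (fun h h1 h2 =>
      dj h (g2 (mem_of_mem_erase h1)) h2 (ne_of_mem_erase h1)) _ ?_ ?_
    · have := Submodule.add_mem _ w1 w2
      convert this using 1
      ring
    · rw [map_add, b2, D_mul, y0, map_add, D_X, D_X, aa]
      simp
  have e2 : y2 ∈ Bd G (m + 1) :=
    Bd.of_add (Bd.mono ((erase_subset _ _).trans (g2.trans g1)) w3) dead
  exact Bd.of_add a3 (Bd.of_add (Bd.mono g1 b3) e2)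

end Pool.Agent.P.MP_75e851_co.R3
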