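import Pool.Agent.P.MP_75e851_co.R3.Iface

/-! Step SDR. -/

set_option autoImplicit false
set_option linter.unusedSectionVars false

namespace Pool.Agent.P.MP_75e851_co.R3

open Finset MvPolynomial

namespace SDRx

variable {V : Type} [DecidableEq V]

/-- the outside neighbours of `m` -/
def N (K M : Gr V) (U m : Finset V) : Finset V :=
  (vs K).filter fun w => w ∉ vs M ∧ w ∉ U ∧ ∃ v ∈ m, ({v, w} : Finset V) ∈ K

theorem card_vs {K J : Gr V} (h : Sub3 K) (hJ : Mt K J) : #(vs J) = 2 * #J := by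
  unfold vs
  rw [card_biUnion (t := id) (fun e he f hf hn => hJ.2 e he f hf hn), mul_comm]
  exact sum_const_nat (m := 2) fun e he => h.two e (hJ.1 he)

theorem edge {K M J : Gr V} {U e : Finset V} (h : Sub3 K) (hD : Dim K M) (hJ : J ⊆ M)
    (he : e ∈ K) :
    #(e ∩ vs J) ≤ (if e ⊆ vs J ∪ U ∪ J.biUnion (N K M U) then 1 else 0) +
      (if e ∈ J then 1 else 0) := by
  by_cases h0 : (e ∩ vs J).Nonempty
  swap
  · rw [not_nonempty_iff_eq_empty.1 h0]; simp
  obtain ⟨v, hv⟩ := h0
  obtain ⟨hv1, hv2⟩ := mem_inter.1 hv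
  obtain ⟨f, hf, hvf⟩ := mem_vs.1 hv2
  by_cases hM : e ∈ M
  · have : e = f := hD.mt.eq hM (hJ hf) hv1 hvf
    subst this
    have h1 : e ⊆ vs J ∪ U ∪ J.biUnion (N K M U) := fun a ha =>
      mem_union_left _ (mem_union_left _ (mem_vs.2 ⟨e, hf, ha⟩))
    rw [if_pos h1, if_pos hf]
    exact (card_le_card inter_subset_left).trans (h.two e he).le
  · obtain ⟨x, w, rfl, hx, hw⟩ := hD.one e he hM
    have hwJ : w ∉ vs J := fun k => by
      obtain ⟨g, g1, g2⟩ := mem_vs.1 k
      exact hw (mem_vs.2 ⟨g, hJ g1, g2⟩)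
    have hvx : v = x := by
      rcases mem_insert.1 hv1 with k | k
      · exact k
      · exact absurd (mem_singleton.1 k ▸ hv2) hwJ
    subst hvx
    have h1 : ({v, w} : Finset V) ⊆ vs J ∪ U ∪ J.biUnion (N K M U) := by
      intro a ha
      rcases mem_insert.1 ha with rfl | k
      · exact mem_union_left _ (mem_union_left _ hv2)
      · rw [mem_singleton.1 k]
        by_cases hU : w ∈ U
        · exact mem_union_left _ (mem_union_right _ hU)
        · exact mem_union_right _ (mem_biUnion.2 ⟨f, hf, mem_filter.2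
            ⟨mem_vs.2 ⟨_, he, by simp⟩, hw, hU, v, hvf, he⟩⟩)
    rw [if_pos h1]
    have h2 : ({v, w} : Finset V) ∩ vs J ⊆ {v} := by
      intro a ha
      obtain ⟨a1, a2⟩ := mem_inter.1 ha
      rcases mem_insert.1 a1 with k | k
      · exact mem_singleton.2 k
      · exact absurd (mem_singleton.1 k ▸ a2) hwJ
    have := card_le_card h2
    rw [card_singleton] at this
    omega

theorem hall {K M J : Gr V} {U : Finset V} (h : Cls K) (hD : Dim K M) (hU : #U ≤ 2)
    (hJ : J ⊆ M) : #J ≤ #(J.biUnion (N K M U)) := by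
  by_contra hn
  push Not at hn
  have h1 : #(vs J) = 2 * #J := card_vs h.toSub3 (hD.mt.sub hJ)
  have h2 : ∑ v ∈ vs J, #(st K v) = #(vs J) * 3 :=
    sum_const_nat fun v hv => hD.deg v (by
      obtain ⟨g, g1, g2⟩ := mem_vs.1 hv
      exact mem_vs.2 ⟨g, hJ g1, g2⟩)
  set W := vs J ∪ U ∪ J.biUnion (N K M U) with hW
  have h3 : ∑ e ∈ K, #(e ∩ vs J) ≤ ein K W + #(K.filter fun e => e ∈ J) := by
    unfold ein
    rw [card_filter, card_filter, ← sum_add_distrib]
    exact sum_le_sum fun e he => edge h.toSub3 hD hJ he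
  have h4 : #(K.filter fun e => e ∈ J) ≤ #J := card_le_card fun e he => (mem_filter.1 he).2
  have h5 : #W ≤ #(vs J) + #U + #(J.biUnion (N K M U)) :=
    (card_union_le _ _).trans (Nat.add_le_add_right (card_union_le _ _) _)
  have h6 : W.Nonempty := by
    have : 0 < #(vs J) := by omega
    exact (card_pos.1 this).mono (subset_union_left.trans subset_union_left)
  have h7 := sum_st K (vs J)
  have h8 := h.d2 W h6
  have h9 := h.d3 W h6 (by omega)
  omega

end SDRx

theorem p_SDR :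
    S_SDR := by
  intro V _ K M U h hD hM hU _
  obtain ⟨f, f1, f2⟩ := (Finset.all_card_le_biUnion_card_iff_exists_injective
    (fun m : {m // m ∈ M} => SDRx.N K M U m.1)).1 (fun s => by
      have := SDRx.hall (J := s.image Subtype.val) h hD hU (fun m hm => by
        obtain ⟨a, -, rfl⟩ := mem_image.1 hm
        exact a.2)
      rwa [card_image_of_injective _ Subtype.val_injective, image_biUnion] at this)
  obtain ⟨m0, hm0⟩ := hM
  have h1 : ∀ m : {m // m ∈ M}, ∃ v ∈ m.1, ({v, f m} : Finset V) ∈ K := fun m =>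
    (mem_filter.1 (f2 m)).2.2.2
  choose g g1 g2 using h1
  refine ⟨fun m => if k : m ∈ M then g ⟨m, k⟩ else f ⟨m0, hm0⟩,
    fun m => if k : m ∈ M then f ⟨m, k⟩ else f ⟨m0, hm0⟩, ?_, ?_, ?_, ?_, ?_⟩
  · intro m k
    rw [dif_pos k]; exact g1 ⟨m, k⟩
  · intro m k
    rw [dif_pos k, dif_pos k]; exact g2 ⟨m, k⟩
  · intro m k
    rw [dif_pos k]; exact (mem_filter.1 (f2 ⟨m, k⟩)).2.1
  · intro m k
    rw [dif_pos k]; exact (mem_filter.1 (f2 ⟨m, k⟩)).2.2.1
  · intro m k n l e
    have k' : m ∈ M := k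
    have l' : n ∈ M := l
    simp only [dif_pos k', dif_pos l'] at e
    exact congrArg Subtype.val (f1 e)

end Pool.Agent.P.MP_75e851_co.R3
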