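import Pool.Agent.P.MP_75e851_co.R3.Iface

/-! Step SIX. -/

set_option autoImplicit false
set_option linter.unusedSectionVars false

namespace Pool.Agent.P.MP_75e851_co.R3

open Finset MvPolynomial

namespace SIXx

variable {V : Type} [DecidableEq V]

theorem nb {G : Gr V} (h : Sub3 G) {s t : V} (hs : ({s, t} : Finset V) ∈ G)
    (h3 : #(st G t) = 3) : ∃ A : Finset V, #A = 2 ∧
      (∀ a ∈ A, ({t, a} : Finset V) ∈ G ∧ a ≠ s) ∧ ∀ e ∈ st G t, e ⊆ A ∪ {s, t} := by
  have hm : ({s, t} : Finset V) ∈ st G t := by simp [hs]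
  have h2 : #((st G t).erase {s, t}) = 2 := by rw [card_erase_of_mem hm, h3]
  obtain ⟨e, f, hef, k⟩ := card_eq_two.1 h2
  have he : e ∈ (st G t).erase {s, t} := by rw [k]; simp
  have hf : f ∈ (st G t).erase {s, t} := by rw [k]; simp
  rw [mem_erase, mem_st] at he hf
  obtain ⟨a, -, rfl⟩ := other (h.two e he.2.1) he.2.2
  obtain ⟨b, -, rfl⟩ := other (h.two f hf.2.1) hf.2.2
  refine ⟨{a, b}, card_pair fun k => hef (by rw [k]), fun x hx => ?_, fun g hg => ?_⟩
  · rcases mem_insert.1 hx with rfl | hx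
    · exact ⟨he.2.1, fun k => he.1 (by rw [k, pair_comm])⟩
    · rw [mem_singleton.1 hx]
      exact ⟨hf.2.1, fun k => hf.1 (by rw [k, pair_comm])⟩
  · by_cases k1 : g = {s, t}
    · rw [k1]; exact subset_union_right
    · have : g ∈ ({{t, a}, {t, b}} : Gr V) := k ▸ mem_erase.2 ⟨k1, hg⟩
      rcases mem_insert.1 this with rfl | this
      · simp [insert_subset_iff]
      · rw [mem_singleton.1 this]; simp [insert_subset_iff]

end SIXx

theorem p_SIX :
    S_SIX := by
  intro V _ G s t u hG h2 h6
  have d1 := h2.sub.deg t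
  have d2 := h2.sub.deg u
  have e := card_union_add_card_inter (st G t) (st G u)
  have e0 : st G t ∩ st G u = ∅ := card_eq_zero.1 (by omega)
  have ntu : ∀ g ∈ G, t ∈ g → u ∉ g := fun g hg k1 k2 =>
    notMem_empty g (e0 ▸ mem_inter.2 ⟨mem_st.2 ⟨hg, k1⟩, mem_st.2 ⟨hg, k2⟩⟩)
  have hst : ({s, t} : Finset V) ∈ G := st_sub (v := s) (by rw [h2.st]; simp)
  have hsu : ({s, u} : Finset V) ∈ G := st_sub (v := s) (by rw [h2.st]; simp)
  obtain ⟨A, cA, a1, a2⟩ := SIXx.nb h2.sub hst (by omega)
  obtain ⟨C, cC, c1, c2⟩ := SIXx.nb h2.sub hsu (by omega)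
  have nt : ∀ g : Finset V, t ∈ g → g ∉ del {s, t, u} G := fun g k l =>
    disjoint_left.1 (mem_del.1 l).2 (by simp) k
  have nu : ∀ g : Finset V, u ∈ g → g ∉ del {s, t, u} G := fun g k l =>
    disjoint_left.1 (mem_del.1 l).2 (by simp) k
  refine ⟨A, C, ⟨cA, cC, fun v => ?_, fun W hA hC => ?_⟩, fun a ha c hc hac =>
    ⟨h2, (a1 a ha).1, (c1 c hc).1, (a1 a ha).2, fun k => ntu _ (a1 a ha).1 (by simp) (by simp [k]),
      (c1 c hc).2, fun k => ntu _ (c1 c hc).1 (by simp [k]) (by simp), hac⟩⟩
  · have d := h2.sub.deg v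
    have b0 : st (del {s, t, u} G) v ⊆ st G v := st_mono del_sub
    have n1 : ({t, v} : Finset V) ∉ st (del {s, t, u} G) v := fun k => nt _ (by simp) (st_sub k)
    have n2 : ({u, v} : Finset V) ∉ st (del {s, t, u} G) v := fun k => nu _ (by simp) (st_sub k)
    have m1 : v ∈ A → ({t, v} : Finset V) ∈ st G v := fun k => by simp [(a1 v k).1]
    have m2 : v ∈ C → ({u, v} : Finset V) ∈ st G v := fun k => by simp [(c1 v k).1]
    split_ifs with k1 k2 k2
    · have := card_le_card (insert_subset (m2 k2) (insert_subset (m1 k1) b0))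
      rw [card_insert_of_notMem, card_insert_of_notMem n1] at this
      · omega
      · rw [mem_insert, not_or]
        exact ⟨fun k => ntu _ (a1 v k1).1 (by simp) (by rw [← k]; simp), n2⟩
    · have := card_le_card (insert_subset (m1 k1) b0)
      rw [card_insert_of_notMem n1] at this
      omega
    · have := card_le_card (insert_subset (m2 k2) b0)
      rw [card_insert_of_notMem n2] at this
      omega
    · have := card_le_card b0
      omega
  · have d := hG.d2 (W ∪ {s, t, u}) ⟨s, by simp⟩
    have c0 := card_union_le W {s, t, u}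
    have c3 : #({s, t, u} : Finset V) ≤ 3 := card_le_three
    have hd : Disjoint ((del {s, t, u} G).filter fun e => e ⊆ W) (st G t ∪ st G u) := by
      refine disjoint_left.2 fun g k l => ?_
      rcases mem_union.1 l with l | l
      · exact nt g (mem_st.1 l).2 (mem_filter.1 k).1
      · exact nu g (mem_st.1 l).2 (mem_filter.1 k).1
    have hs : ((del {s, t, u} G).filter fun e => e ⊆ W) ∪ (st G t ∪ st G u) ⊆
        G.filter fun e => e ⊆ W ∪ {s, t, u} := by
      intro g k
      rcases mem_union.1 k with k | k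
      · exact mem_filter.2 ⟨del_sub (mem_filter.1 k).1, (mem_filter.1 k).2.trans subset_union_left⟩
      rcases mem_union.1 k with k | k
      · exact mem_filter.2 ⟨st_sub k, (a2 g k).trans (union_subset_union hA (by
          simp [insert_subset_iff]))⟩
      · exact mem_filter.2 ⟨st_sub k, (c2 g k).trans (union_subset_union hC (by
          simp [insert_subset_iff]))⟩
    have := card_le_card hs
    rw [card_union_of_disjoint hd] at this
    unfold ein at d ⊢
    omega

end Pool.Agent.P.MP_75e851_co.R3
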