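import Pool.Agent.P.MP_75e851_co.R3.Iface

/-! Step T. -/

set_option autoImplicit false
set_option linter.unusedSectionVars false

namespace Pool.Agent.P.MP_75e851_co.R3

open Finset MvPolynomial

namespace Tx

variable {V : Type} [DecidableEq V]

theorem low {G : Gr V} (h : Cls G) (hG : G.Nonempty) :
    ∃ s, 1 ≤ #(st G s) ∧ #(st G s) ≤ 2 := by
  by_contra k
  push Not at k
  obtain ⟨g, hg⟩ := hG
  obtain ⟨v, hv⟩ := h.ne hg
  have h1 := h.d2 (vs G) ⟨v, mem_vs.2 ⟨g, hg, hv⟩⟩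
  have h2 := sum_st G (vs G)
  have h3 : ∑ e ∈ G, #(e ∩ vs G) = 2 * ein G (vs G) := by
    have : G.filter (fun e => e ⊆ vs G) = G :=
      filter_true_of_mem fun e he a ha => mem_vs.2 ⟨e, he, ha⟩
    rw [ein, this, mul_comm, ← smul_eq_mul, ← sum_const]
    exact sum_congr rfl fun e he => by
      rw [inter_eq_left.2 fun a ha => mem_vs.2 ⟨e, he, ha⟩, h.two e he]
  have h4 : #(vs G) • 3 ≤ ∑ v ∈ vs G, #(st G v) := card_nsmul_le_sum _ _ _ fun a ha => by
    obtain ⟨e, he, ha⟩ := mem_vs.1 ha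
    exact k a (card_pos.2 ⟨e, mem_st.2 ⟨he, ha⟩⟩)
  rw [smul_eq_mul] at h4
  omega

end Tx

theorem p_T (hRED : S_RED) (hCHERRY : S_CHERRY) :
    S_T := by
  intro V _ G
  induction hn : #G using Nat.strong_induction_on generalizing G with
  | _ n ih =>
  subst hn
  intro m hG hm z hz h0
  rcases m with _ | m
  · refine Nm.le (fun s _ b ⟨g, hg, _⟩ => ?_) hz
    rw [card_eq_zero.1 b]
    refine mem_Bd.2 ⟨X g * 1, X_mul_mem hg (hG.ne hg) one_mem, by simp⟩
  have lk : ∀ f ∈ G, pderiv f z ∈ Bd (del f G) m := fun f hf => by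
    have h1 := hG.card_link hf
    have h2 : #(del f G) < #G := card_lt_card ⟨del_sub, fun k => hG.nd hf (mem_del.1 (k hf)).2⟩
    exact ih _ h2 _ rfl m (hG.mono del_sub) (by omega) _ (pd_memN f hz)
      (by rw [← pd_D, h0, map_zero])
  obtain ⟨s, s1, s2⟩ := Tx.low hG (card_pos.1 (by omega))
  by_cases h1 : #(st G s) = 1
  · obtain ⟨e, he⟩ := card_eq_one.1 h1
    have e1 : e ∈ st G s := he ▸ mem_singleton_self e
    obtain ⟨e2, e3⟩ := mem_st.1 e1
    obtain ⟨t, t1, rfl⟩ := other (hG.two e e2) e3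
    obtain ⟨y, y1, y2, y3⟩ := star (F := (st G t).erase {s, t}) (t := t) (erase_subset _ _)
      (Nm.ch hz) h0 fun f hf => lk f (st_sub (mem_of_mem_erase hf))
    refine Bd.of_add y3 (Bd.mono sdiff_subset (cone (f := {s, t}) (by simp [e2]) (by simp)
      (fun g hg hn => ?_) y y1 y2))
    simp only [mem_sdiff, mem_erase, mem_st, not_and] at hg
    rw [disjoint_insert_left, disjoint_singleton_left]
    exact ⟨fun k => hn (mem_singleton.1 (he ▸ mem_st.2 ⟨hg.1, k⟩)), hg.2 hn hg.1⟩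
  obtain ⟨e, f, hef, he⟩ := card_eq_two.1 (show #(st G s) = 2 by omega)
  obtain ⟨e2, e3⟩ := mem_st.1 (show e ∈ st G s by rw [he]; simp)
  obtain ⟨f2, f3⟩ := mem_st.1 (show f ∈ st G s by rw [he]; simp)
  obtain ⟨t, -, rfl⟩ := other (hG.two e e2) e3
  obtain ⟨u, -, rfl⟩ := other (hG.two f f2) f3
  have h2 : Two G s t u := ⟨hG.toSub3, fun k => hef (by rw [k]), he⟩
  exact hRED V G s t u m z h2 (Nm.ch hz) h0 (fun f hf => lk f (st_sub hf))
    (hCHERRY V G s t u m hG h2 hm fun K a b c => ih _ b K rfl m a c)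

end Pool.Agent.P.MP_75e851_co.R3
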