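import Pool.Agent.P.MP_75e851_co.R3.Iface

set_option autoImplicit false
set_option linter.unusedSectionVars false

namespace Pool.Agent.P.MP_75e851_co.R3

open Finset MvPolynomial

namespace XDISx

variable {V : Type} [DecidableEq V]

/-- the edges inside `W` that join `I` to the rest -/
def cr (H : Gr V) (W I : Finset V) : Gr V :=
  H.filter fun e => e ⊆ W ∧ ¬ e ⊆ I ∧ ¬ e ⊆ W \ I

theorem ein_le (H : Gr V) (W I : Finset V) :
    ein H W ≤ ein H I + ein H (W \ I) + #(cr H W I) := by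
  unfold ein cr
  refine le_trans (card_le_card (t := (H.filter fun e => e ⊆ I) ∪ (H.filter fun e => e ⊆ W \ I) ∪
    (H.filter fun e => e ⊆ W ∧ ¬ e ⊆ I ∧ ¬ e ⊆ W \ I)) fun e he => ?_) ?_
  · simp only [mem_union, mem_filter] at he ⊢
    tauto
  · refine (card_union_le _ _).trans (Nat.add_le_add_right (card_union_le _ _) _)

theorem part {H : Gr V} (hH : Cls H) {W I : Finset V} {a c : V} (hI : I ⊆ W) (hne : I.Nonempty)
    (h4 : #W ≤ 4) (dW : 3 * #W = 2 * ein H W + 4) (dI : 3 * #I = 2 * ein H I + 3)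
    (ha : a ∈ W) (hc : c ∈ W) (hmin : ∀ Z : Finset V, a ∈ Z → c ∈ Z → Wit H Z → #W ≤ #Z) :
    2 ≤ (if a ∈ I then 1 else 0) + (if c ∈ I then 1 else 0) + #(cr H W I) := by
  have h1 := ein_le H W I
  have h2 : #(W \ I) + #I = #W := card_sdiff_add_card_eq_card hI
  have h3 : 0 < #I := card_pos.2 hne
  have hX : (W \ I).Nonempty := by
    rw [nonempty_iff_ne_empty]
    intro h
    have : W = I := Subset.antisymm (sdiff_eq_empty_iff_subset.1 h) hI
    rw [this] at dW
    omega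
  have h5 := hH.d3 (W \ I) hX (by omega)
  by_cases k1 : a ∈ I <;> by_cases k2 : c ∈ I <;> simp only [k1, k2, if_true, if_false]
  · omega
  · omega
  · omega
  · by_contra hlt
    have := hmin (W \ I) (mem_sdiff.2 ⟨ha, k1⟩) (mem_sdiff.2 ⟨hc, k2⟩) (Or.inl (by omega))
    omega

theorem marks (I : Finset V) {a a' : V} (h : #({a, a'} : Finset V) = 2) :
    ∑ v ∈ I, (if v ∈ ({a, a'} : Finset V) then 1 else 0) =
      (if a ∈ I then 1 else 0) + (if a' ∈ I then 1 else 0) := by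
  have hne : a ≠ a' := by
    rintro rfl
    simp at h
  have : ∀ v, (if v ∈ ({a, a'} : Finset V) then 1 else 0) =
      (if v = a then 1 else 0) + (if v = a' then 1 else 0) := fun v => by
    by_cases k1 : v = a
    · subst k1; simp [hne]
    · by_cases k2 : v = a'
      · subst k2; simp [k1]
      · simp [k1, k2]
  simp only [this, sum_add_distrib, sum_ite_eq']

theorem inc {H : Gr V} (hH : Sub3 H) (W W' : Finset V) :
    2 * ein H (W ∩ W') + #(cr H W (W ∩ W')) + #(cr H W' (W ∩ W')) ≤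
      ∑ v ∈ W ∩ W', #(st H v) := by
  rw [sum_st]
  unfold ein cr
  simp only [card_filter, mul_sum, ← sum_add_distrib]
  refine sum_le_sum fun e he => ?_
  have key : ∀ U : Finset V, e ⊆ U → ¬ e ⊆ U \ (W ∩ W') → 1 ≤ #(e ∩ (W ∩ W')) := by
    intro U h1 h2
    refine card_pos.2 ?_
    by_contra hn
    refine h2 fun v hv => mem_sdiff.2 ⟨h1 hv, fun k => hn ⟨v, mem_inter.2 ⟨hv, k⟩⟩⟩
  by_cases k : e ⊆ W ∩ W'
  · rw [inter_eq_left.2 k, hH.two e he]
    simp [k]
  · by_cases k1 : e ⊆ W ∧ ¬ e ⊆ W \ (W ∩ W') <;> by_cases k2 : e ⊆ W' ∧ ¬ e ⊆ W' \ (W ∩ W')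
    · exact absurd (subset_inter k1.1 k2.1) k
    · have := key W k1.1 k1.2
      rw [if_neg k, if_pos ⟨k1.1, k, k1.2⟩, if_neg fun h => k2 ⟨h.1, h.2.2⟩]
      omega
    · have := key W' k2.1 k2.2
      rw [if_neg k, if_neg fun h => k1 ⟨h.1, h.2.2⟩, if_pos ⟨k2.1, k, k2.2⟩]
      omega
    · rw [if_neg k, if_neg fun h => k1 ⟨h.1, h.2.2⟩, if_neg fun h => k2 ⟨h.1, h.2.2⟩]
      omega

end XDISx

theorem p_XDIS : S_XDIS := by
  intro V _ H a a' c c' W W' hH hM _ _ ha hc ha' hc' w w' m m'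
  by_contra hd
  have hne : (W ∩ W').Nonempty := by
    rw [nonempty_iff_ne_empty]
    exact fun h => hd (disjoint_iff_inter_eq_empty.2 h)
  have h1 := ein_union_inter H W W'
  have h2 := card_union_add_card_inter W W'
  have h3 := hM.big (W ∪ W')
    (insert_subset (mem_union_left _ ha) (singleton_subset_iff.2 (mem_union_right _ ha')))
    (insert_subset (mem_union_left _ hc) (singleton_subset_iff.2 (mem_union_right _ hc')))
  have h4 := hH.d2 _ hne
  have h5 := hH.d3 _ hne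
  have h6 : #(W ∩ W') ≤ #W := card_le_card inter_subset_left
  have h7 : #(W ∩ W') ≤ #W' := card_le_card inter_subset_right
  have key : #W ≤ 4 ∧ #W' ≤ 4 ∧ 3 * #W = 2 * ein H W + 4 ∧ 3 * #W' = 2 * ein H W' + 4 ∧
      3 * #(W ∩ W') = 2 * ein H (W ∩ W') + 3 := by
    unfold Wit at w w'
    omega
  obtain ⟨k1, k2, k3, k4, k5⟩ := key
  have p1 := XDISx.part hH inter_subset_left hne k1 k3 k5 ha hc m
  have p2 := XDISx.part hH inter_subset_right hne k2 k4 k5 ha' hc' m'
  have p3 := XDISx.inc hH.toSub3 W W'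
  have p4 := sum_le_sum fun v (_ : v ∈ W ∩ W') => hM.deg v
  rw [sum_add_distrib, sum_add_distrib, XDISx.marks _ hM.cA, XDISx.marks _ hM.cC, sum_const,
    smul_eq_mul] at p4
  omega

end Pool.Agent.P.MP_75e851_co.R3
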