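import Pool.Agent.P.MP_75e851_co.R3.Iface

/-! Step Z. -/

set_option autoImplicit false
set_option linter.unusedSectionVars false

namespace Pool.Agent.P.MP_75e851_co.R3

open Finset MvPolynomial

namespace Zx

theorem D_prod {α β : Type} [DecidableEq β] (S : Finset β) (f g : β → α) :
    D (∏ m ∈ S, (X (f m) + X (g m) : R α)) = 0 := by
  induction S using Finset.induction_on with
  | empty => simp
  | insert a s ha ih =>
    rw [prod_insert ha, D_mul, ih, map_add, D_X, D_X, aa, mul_zero, mul_zero, add_zero]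

end Zx

theorem p_Z (hDIM : S_DIM) (hSAFE : S_SAFE) (hFLM : S_FLM) :
    S_Z := by
  intro V _ K M U hK hM hE h5 hU hd
  rcases M.eq_empty_or_nonempty with rfl | hne
  · refine ⟨1, one_mem, by simp, ?_⟩
    rw [xs_empty, aa]
    exact Submodule.zero_mem _
  have hD := (hDIM V K M hK.toSub3 hM hE).2 h5
  obtain ⟨x, w, hS, hJ⟩ := hSAFE V K M U hK hD hne hU hd
  have hF := fun J (h : J ⊆ M) => hFLM V K M J U x w hM hS hd h
  have hz : ∏ m ∈ M, (X ({x m, w m} : Finset V) + X m : R (Finset V)) =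
      ∑ J ∈ M.powerset, xs (Fl M J x w) := by
    rw [prod_add]
    exact sum_congr rfl fun J hJ' => ((hF J (mem_powerset.1 hJ')).2.2).symm
  refine ⟨∏ m ∈ M, (X ({x m, w m} : Finset V) + X m : R (Finset V)), ?_,
    Zx.D_prod M (fun m => ({x m, w m} : Finset V)) (fun m => m), ?_⟩
  · rw [hz]
    exact Submodule.sum_mem _ fun J hJ' =>
      xs_mem (hF J (mem_powerset.1 hJ')).1 (hF J (mem_powerset.1 hJ')).2.1
  · have h0 : Fl M ∅ x w = M := by simp [Fl]
    rw [hz, ← add_sum_erase _ _ (empty_mem_powerset M), h0, add_right_comm, aa, zero_add]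
    refine Submodule.sum_mem _ fun J hJ' => ?_
    have hs : J ⊆ M := mem_powerset.1 (mem_of_mem_erase hJ')
    have hn : J.Nonempty := nonempty_iff_ne_empty.2 (ne_of_mem_erase hJ')
    have hm : Mt K (Fl M J x w) := (hF J hs).1.mono del_sub
    refine xs_memN hm (hF J hs).2.1 ?_
    by_contra hx
    exact hJ J hs hn ((hDIM V K _ hK.toSub3 hm hx).2 (by rw [(hF J hs).2.1]; exact h5))

end Pool.Agent.P.MP_75e851_co.R3
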