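import Pool.Agent.P.MP_75e851_co.R3.THCH
import Pool.Agent.P.MP_75e851_co.R3.THALL
import Pool.Agent.P.MP_75e851_co.R3.TCON
import Pool.Agent.P.MP_75e851_co.R3.TJOINA
import Pool.Agent.P.MP_75e851_co.R3.TJOIN
import Pool.Agent.P.MP_75e851_co.R3.TDIM
import Pool.Agent.P.MP_75e851_co.R3.TSDR
import Pool.Agent.P.MP_75e851_co.R3.TFLM
import Pool.Agent.P.MP_75e851_co.R3.TFLIPA
import Pool.Agent.P.MP_75e851_co.R3.TFLIP
import Pool.Agent.P.MP_75e851_co.R3.TSAFE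
import Pool.Agent.P.MP_75e851_co.R3.TZ
import Pool.Agent.P.MP_75e851_co.R3.TPURGE
import Pool.Agent.P.MP_75e851_co.R3.TNOWIT
import Pool.Agent.P.MP_75e851_co.R3.TXDIS
import Pool.Agent.P.MP_75e851_co.R3.TFOUR
import Pool.Agent.P.MP_75e851_co.R3.TPAIR
import Pool.Agent.P.MP_75e851_co.R3.TRED
import Pool.Agent.P.MP_75e851_co.R3.TDEAD
import Pool.Agent.P.MP_75e851_co.R3.TFIVE
import Pool.Agent.P.MP_75e851_co.R3.TSIX
import Pool.Agent.P.MP_75e851_co.R3.TPICK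
import Pool.Agent.P.MP_75e851_co.R3.TCHERRY
import Pool.Agent.P.MP_75e851_co.R3.TT
import Pool.Agent.P.MP_75e851_co.R3.TBIPC
import Pool.Agent.P.MP_75e851_co.R3.TDEC
import Pool.Agent.P.MP_75e851_co.R3.TCUB
import Pool.Agent.P.MP_75e851_co.R3.TA
import Pool.Agent.P.MP_75e851_co.R3.Fin

/-! Assembly. -/

set_option autoImplicit false

namespace Pool.Agent.P.MP_75e851_co.R3

theorem a_HCH : S_HCH := p_HCH
theorem a_HALL : S_HALL := p_HALL a_HCH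
theorem a_CON : S_CON := p_CON
theorem a_JOINA : S_JOINA := p_JOINA a_CON
theorem a_JOIN : S_JOIN := p_JOIN a_CON a_JOINA
theorem a_DIM : S_DIM := p_DIM
theorem a_SDR : S_SDR := p_SDR
theorem a_FLM : S_FLM := p_FLM
theorem a_FLIPA : S_FLIPA := p_FLIPA
theorem a_FLIP : S_FLIP := p_FLIP a_FLIPA a_FLM
theorem a_SAFE : S_SAFE := p_SAFE a_SDR a_FLIP
theorem a_Z : S_Z := p_Z a_DIM a_SAFE a_FLM
theorem a_PURGE : S_PURGE := p_PURGE a_Z a_DIM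
theorem a_NOWIT : S_NOWIT := p_NOWIT
theorem a_XDIS : S_XDIS := p_XDIS
theorem a_FOUR : S_FOUR := p_FOUR
theorem a_PAIR : S_PAIR := p_PAIR a_NOWIT a_XDIS a_FOUR
theorem a_RED : S_RED := p_RED
theorem a_DEAD : S_DEAD := p_DEAD
theorem a_FIVE : S_FIVE := p_FIVE
theorem a_SIX : S_SIX := p_SIX
theorem a_PICK : S_PICK := p_PICK
theorem a_CHERRY : S_CHERRY := p_CHERRY a_DIM a_PURGE a_PAIR a_DEAD a_FIVE a_SIX a_PICK
theorem a_T : S_T := p_T a_RED a_CHERRY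
theorem a_BIPC : S_BIPC := p_BIPC
theorem a_DEC : S_DEC := p_DEC a_BIPC
theorem a_CUB : S_CUB := p_CUB a_DIM a_PURGE a_T
theorem a_A : S_A := p_A a_DIM a_T a_DEC a_CUB a_JOIN

theorem q_all {d : ℕ} (hd : d ≤ 3) : Q d := q_low a_HALL a_A a_RED a_DEAD hd

end Pool.Agent.P.MP_75e851_co.R3
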