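import Mathlib

/-! Graphs as finite sets of two element sets; chains of matchings over the field with two
elements, as polynomials in the edges. -/

set_option autoImplicit false
set_option linter.unusedSectionVars false

namespace Pool.Agent.P.MP_75e851_co.R3

open Finset MvPolynomial

/-- a graph is a finite set of edges, an edge a finite set of vertices -/
abbrev Gr (V : Type) := Finset (Finset V)

variable {V : Type} [DecidableEq V]

/-- `s` is a matching of `G` -/
def Mt (G s : Gr V) : Prop := s ⊆ G ∧ ∀ e ∈ s, ∀ f ∈ s, e ≠ f → Disjoint e f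

/-- `s` can be extended by an edge of `G` -/
def Ext (G s : Gr V) : Prop := ∃ g ∈ G, ∀ e ∈ s, Disjoint g e

/-- the edges that miss `U` -/
def del (U : Finset V) (G : Gr V) : Gr V := G.filter fun e => Disjoint U e

/-- the edges at `v` -/
def st (G : Gr V) (v : V) : Gr V := G.filter fun e => v ∈ e

/-- the number of edges inside `W` -/
def ein (G : Gr V) (W : Finset V) : ℕ := #(G.filter fun e => e ⊆ W)

/-- the vertices covered by `s` -/
def vs (s : Gr V) : Finset V := s.biUnion id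

structure Sub3 (G : Gr V) : Prop where
  two : ∀ e ∈ G, #e = 2
  deg : ∀ v, #(st G v) ≤ 3

/-- the class of the induction -/
structure Cls (G : Gr V) : Prop extends Sub3 G where
  d2 : ∀ W : Finset V, W.Nonempty → 2 * ein G W + 2 ≤ 3 * #W
  d3 : ∀ W : Finset V, W.Nonempty → #W ≤ 4 → 2 * ein G W + 3 ≤ 3 * #W

/-- bipartite -/
def Bip (G : Gr V) : Prop :=
  ∃ c : V → Bool, ∀ e ∈ G, ∃ a b, e = {a, b} ∧ c a = true ∧ c b = false

/-- a dominating induced matching with cubic ends -/
structure Dim (K M : Gr V) : Prop where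
  mt : Mt K M
  deg : ∀ v ∈ vs M, #(st K v) = 3
  one : ∀ g ∈ K, g ∉ M → ∃ x w, g = {x, w} ∧ x ∈ vs M ∧ w ∉ vs M

/-- distinct outside neighbours `w m`, joined to the end `x m` of `m` -/
structure Sdr (K M : Gr V) (U : Finset V) (x w : Finset V → V) : Prop where
  mem : ∀ m ∈ M, x m ∈ m
  adj : ∀ m ∈ M, ({x m, w m} : Finset V) ∈ K
  out : ∀ m ∈ M, w m ∉ vs M
  off : ∀ m ∈ M, w m ∉ U
  inj : Set.InjOn w (M : Set (Finset V))

/-- replace the edges of `J` -/
def Fl (M J : Gr V) (x w : Finset V → V) : Gr V :=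
  (M \ J) ∪ J.image fun m => ({x m, w m} : Finset V)

/-- a set that forbids a new edge inside it -/
def Wit (H : Gr V) (W : Finset V) : Prop :=
  3 * #W ≤ 2 * ein H W + 3 ∨ (#W ≤ 4 ∧ 3 * #W ≤ 2 * ein H W + 4)

/-- the marked vertices -/
structure Mk (H : Gr V) (A C : Finset V) : Prop where
  cA : #A = 2
  cC : #C = 2
  deg : ∀ v, #(st H v) + (if v ∈ A then 1 else 0) + (if v ∈ C then 1 else 0) ≤ 3
  big : ∀ W : Finset V, A ⊆ W → C ⊆ W → 2 * ein H W + 5 ≤ 3 * #W

section Graph

variable {G H s t : Gr V} {U W W' e f : Finset V} {v : V}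

@[simp] theorem mem_del : e ∈ del U G ↔ e ∈ G ∧ Disjoint U e := mem_filter
@[simp] theorem mem_st : e ∈ st G v ↔ e ∈ G ∧ v ∈ e := mem_filter
@[simp] theorem mem_vs : v ∈ vs s ↔ ∃ e ∈ s, v ∈ e := by simp [vs]

theorem del_sub : del U G ⊆ G := filter_subset _ _
theorem st_sub : st G v ⊆ G := filter_subset _ _
theorem st_mono (h : G ⊆ H) : st G v ⊆ st H v := filter_subset_filter _ h
theorem del_mono (h : G ⊆ H) : del U G ⊆ del U H := filter_subset_filter _ h
theorem ein_mono (h : G ⊆ H) : ein G W ≤ ein H W := card_le_card (filter_subset_filter _ h)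

theorem ein_mono' (h : W ⊆ W') : ein G W ≤ ein G W' :=
  card_le_card fun e he => by
    simp only [mem_filter] at he ⊢; exact ⟨he.1, he.2.trans h⟩

theorem Sub3.mono (h : Sub3 H) (hG : G ⊆ H) : Sub3 G :=
  ⟨fun e he => h.two e (hG he), fun v => (card_le_card (st_mono hG)).trans (h.deg v)⟩

theorem Cls.mono (h : Cls H) (hG : G ⊆ H) : Cls G :=
  ⟨h.toSub3.mono hG, fun W hW => by have := h.d2 W hW; have := ein_mono (W := W) hG; omega,
    fun W hW h4 => by have := h.d3 W hW h4; have := ein_mono (W := W) hG; omega⟩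

theorem Bip.mono (h : Bip H) (hG : G ⊆ H) : Bip G :=
  h.imp fun _ hc e he => hc e (hG he)

theorem Mt.mono (h : Mt G s) (hG : G ⊆ H) : Mt H s := ⟨h.1.trans hG, h.2⟩

theorem Mt.sub (h : Mt G s) (ht : t ⊆ s) : Mt G t :=
  ⟨ht.trans h.1, fun e he f hf => h.2 e (ht he) f (ht hf)⟩

theorem Mt.of_sub (h : Mt G s) (hH : s ⊆ H) : Mt H s := ⟨hH, h.2⟩

theorem Mt.eq (h : Mt G s) (he : e ∈ s) (hf : f ∈ s) (h1 : v ∈ e) (h2 : v ∈ f) : e = f := by
  by_contra hn
  exact disjoint_left.1 (h.2 e he f hf hn) h1 h2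

theorem mt_empty : Mt G ∅ := ⟨empty_subset _, by simp⟩

/-- the other end of an edge -/
theorem other (h : #e = 2) (hv : v ∈ e) : ∃ u, u ≠ v ∧ e = {v, u} := by
  obtain ⟨a, b, hab, rfl⟩ := card_eq_two.1 h
  rcases mem_insert.1 hv with rfl | hv
  · exact ⟨b, hab.symm, rfl⟩
  · rw [mem_singleton.1 hv]; exact ⟨a, hab, pair_comm _ _⟩

theorem Sub3.ne (h : Sub3 G) (he : e ∈ G) : e.Nonempty :=
  card_pos.1 (by rw [h.two e he]; omega)

theorem Sub3.nd (h : Sub3 G) (he : e ∈ G) : ¬ Disjoint e e := fun hd =>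
  (h.ne he).ne_empty (disjoint_self.1 hd)

theorem Sub3.adj_ne (h : Sub3 G) {a b : V} (he : ({a, b} : Finset V) ∈ G) : a ≠ b := by
  rintro rfl
  have := h.two _ he
  simp at this

/-- double counting of incidences -/
theorem sum_st (G : Gr V) (W : Finset V) : ∑ v ∈ W, #(st G v) = ∑ e ∈ G, #(e ∩ W) := by
  simp only [st, card_filter]
  rw [sum_comm]
  refine sum_congr rfl fun e _ => ?_
  rw [← card_filter, inter_comm, filter_mem_eq_inter]

theorem ein_union_inter (G : Gr V) (W W' : Finset V) :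
    ein G W + ein G W' ≤ ein G (W ∪ W') + ein G (W ∩ W') := by
  unfold ein
  rw [← card_union_add_card_inter]
  refine add_le_add (card_le_card fun e he => ?_) (card_le_card fun e he => ?_)
  · simp only [mem_union, mem_filter] at he ⊢
    rcases he with h | h
    · exact ⟨h.1, h.2.trans subset_union_left⟩
    · exact ⟨h.1, h.2.trans subset_union_right⟩
  · simp only [mem_inter, mem_filter] at he ⊢
    exact ⟨he.1.1, subset_inter he.1.2 he.2.2⟩

/-- the edges that meet `U` -/
theorem card_del (G : Gr V) (U : Finset V) : #G = #(del U G) + #(U.biUnion (st G)) := by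
  rw [← card_union_of_disjoint]
  · congr 1
    ext e
    simp only [mem_union, mem_del, mem_biUnion, mem_st, disjoint_left]
    by_cases h : ∃ a ∈ U, a ∈ e <;> aesop
  · simp only [disjoint_left, mem_del, mem_biUnion, mem_st]
    rintro e ⟨-, h⟩ ⟨a, h1, -, h2⟩
    exact h h1 h2

theorem Sub3.card_link (h : Sub3 G) (hf : f ∈ G) : #G ≤ #(del f G) + 5 := by
  obtain ⟨a, b, hab, rfl⟩ := card_eq_two.1 (h.two f hf)
  have h1 := card_del G {a, b}
  have h2 := card_union_add_card_inter (st G a) (st G b)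
  have h3 : 0 < #(st G a ∩ st G b) := card_pos.2 ⟨{a, b}, by simp [hf]⟩
  have := h.deg a
  have := h.deg b
  rw [biUnion_insert, singleton_biUnion] at h1
  omega

end Graph

/-! ### chains -/

abbrev R (α : Type) := MvPolynomial α (ZMod 2)

/-- the boundary map -/
noncomputable def D {α : Type} : Derivation (ZMod 2) (R α) (R α) :=
  MvPolynomial.mkDerivation (ZMod 2) fun _ => 1

/-- the face `s` -/
noncomputable def xs {α : Type} (s : Finset α) : R α := ∏ e ∈ s, X e

/-- chains of matchings with `m` edges -/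
noncomputable def Ch (G : Gr V) (m : ℕ) : Submodule (ZMod 2) (R (Finset V)) :=
  Submodule.span (ZMod 2) {p | ∃ s, Mt G s ∧ #s = m ∧ p = xs s}

/-- chains without maximal matchings -/
noncomputable def Nm (G : Gr V) (m : ℕ) : Submodule (ZMod 2) (R (Finset V)) :=
  Submodule.span (ZMod 2) {p | ∃ s, Mt G s ∧ #s = m ∧ Ext G s ∧ p = xs s}

/-- boundaries -/
noncomputable def Bd (G : Gr V) (m : ℕ) : Submodule (ZMod 2) (R (Finset V)) :=
  (Ch G (m + 1)).map (D : Derivation (ZMod 2) (R (Finset V)) _).toLinearMap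

/-- every cycle of size `m` bounds -/
def Ac (G : Gr V) (m : ℕ) : Prop := ∀ z ∈ Ch G m, D z = 0 → z ∈ Bd G m

/-- every cycle of size `m` without maximal matchings bounds -/
def Tc (G : Gr V) (m : ℕ) : Prop := ∀ z ∈ Nm G m, D z = 0 → z ∈ Bd G m

section Ring

variable {α : Type}

theorem aa (p : R α) : p + p = 0 := CharTwo.add_self_eq_zero p

theorem two_z : (2 : R α) = 0 := CharTwo.two_eq_zero

@[simp] theorem D_X (e : α) : D (X e : R α) = 1 := by simp [D]

theorem D_mul (p q : R α) : D (p * q) = p * D q + q * D p := by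
  rw [Derivation.leibniz]; rfl

theorem pd_mul (f : α) (p q : R α) :
    pderiv f (p * q) = p * pderiv f q + q * pderiv f p := by
  rw [Derivation.leibniz]; rfl

theorem DD (p : R α) : D (D p) = 0 := by
  induction p using MvPolynomial.induction_on with
  | C a => simp
  | add p q hp hq => rw [map_add, map_add, hp, hq, add_zero]
  | mul_X p e hp =>
    rw [D_mul, D_X, mul_one, map_add, D_mul, hp, D_X, mul_zero, zero_add, mul_one, aa]

theorem pd_D (f : α) (p : R α) : pderiv f (D p) = D (pderiv f p) := by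
  classical
  induction p using MvPolynomial.induction_on with
  | C a => simp
  | add p q hp hq => simp only [map_add, hp, hq]
  | mul_X p e hp =>
    have : D (pderiv f (X e : R α)) = 0 := by
      rw [pderiv_X]; by_cases h : e = f
      · subst h; simp
      · simp [h]
    simp only [D_mul, pd_mul, map_add, D_X, mul_one, hp, this, mul_zero, zero_add]
    ring

@[simp] theorem xs_empty : xs (∅ : Finset α) = 1 := rfl

variable [DecidableEq α]

theorem xs_insert {s : Finset α} {e : α} (h : e ∉ s) : xs (insert e s) = X e * xs s :=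
  prod_insert h

theorem xs_erase {s : Finset α} {e : α} (h : e ∈ s) : xs s = X e * xs (s.erase e) :=
  (mul_prod_erase s _ h).symm

theorem xs_union {s t : Finset α} (h : Disjoint s t) : xs (s ∪ t) = xs s * xs t :=
  prod_union h

theorem D_xs (s : Finset α) : D (xs s) = ∑ e ∈ s, xs (s.erase e) := by
  induction s using Finset.induction_on with
  | empty => simp
  | insert a s ha ih =>
    rw [xs_insert ha, D_mul, D_X, mul_one, ih, sum_insert ha, erase_insert ha, add_comm, mul_sum]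
    congr 1
    refine sum_congr rfl fun e he => ?_
    have : a ≠ e := fun h => ha (h ▸ he)
    rw [erase_insert_of_ne this, xs_insert fun h => ha (mem_of_mem_erase h)]

theorem pd_xs_not {s : Finset α} {f : α} (h : f ∉ s) : pderiv f (xs s) = 0 := by
  induction s using Finset.induction_on with
  | empty => simp
  | insert a s ha ih =>
    rw [mem_insert, not_or] at h
    rw [xs_insert ha, pd_mul, ih h.2, pderiv_X_of_ne (Ne.symm h.1)]; simp

theorem pd_xs {s : Finset α} {f : α} (h : f ∈ s) : pderiv f (xs s) = xs (s.erase f) := by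
  rw [xs_erase h, pd_mul, pd_xs_not (notMem_erase f s), pderiv_X_self]; simp

/-- every unordered pair appears twice -/
theorem sym_sum {β : Type} (S : Finset α) (g : Finset α → R β) :
    ∑ i ∈ S, ∑ j ∈ S.erase i, g ((S.erase i).erase j) = 0 := by
  rw [sum_sigma']
  refine sum_involution (fun p _ => ⟨p.2, p.1⟩) ?_ ?_ ?_ ?_
  · rintro ⟨i, j⟩ _
    dsimp only
    rw [erase_right_comm, aa]
  · rintro ⟨i, j⟩ h _ k
    simp only [mem_sigma, mem_erase] at h
    exact h.2.1 (congrArg Sigma.fst k)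
  · rintro ⟨i, j⟩ h
    simp only [mem_sigma, mem_erase] at h ⊢
    exact ⟨h.2.2, fun k => h.2.1 k.symm, h.1⟩
  · rintro ⟨i, j⟩ _
    rfl

theorem xs_eq (s : Finset α) :
    xs s = monomial (∑ e ∈ s, Finsupp.single e 1) (1 : ZMod 2) := by
  induction s using Finset.induction_on with
  | empty => simp
  | insert a s ha ih => rw [xs_insert ha, sum_insert ha, ih, X, monomial_mul, one_mul]

theorem supp_ind (s : Finset α) : (∑ e ∈ s, Finsupp.single e 1 : α →₀ ℕ).support = s := by
  ext a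
  simp [Finsupp.finsetSum_apply, Finsupp.single_apply]

/-- the faces are linearly independent -/
theorem exists_lin {M : Type} [AddCommGroup M] [Module (ZMod 2) M] (g : Finset α → M) :
    ∃ σ : R α →ₗ[ZMod 2] M, ∀ s, σ (xs s) = g s := by
  refine ⟨(basisMonomials α (ZMod 2)).constr (ZMod 2) fun d => g d.support, fun s => ?_⟩
  have := (basisMonomials α (ZMod 2)).constr_basis (ZMod 2) (fun d => g d.support)
    (∑ e ∈ s, Finsupp.single e 1)
  rw [coe_basisMonomials] at this
  rw [xs_eq, this, supp_ind]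

end Ring

section Chain

variable {G H s : Gr V} {m n : ℕ} {f : Finset V} {z b : R (Finset V)}

theorem xs_mem (h : Mt G s) (hm : #s = m) : xs s ∈ Ch G m :=
  Submodule.subset_span ⟨s, h, hm, rfl⟩

theorem xs_memN (h : Mt G s) (hm : #s = m) (he : Ext G s) : xs s ∈ Nm G m :=
  Submodule.subset_span ⟨s, h, hm, he, rfl⟩

/-- a linear map sends the chains into `L` if it sends the faces into `L` -/
theorem Ch.map_mem {M : Type} [AddCommGroup M] [Module (ZMod 2) M] {L : Submodule (ZMod 2) M}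
    (φ : R (Finset V) →ₗ[ZMod 2] M) (h : ∀ s, Mt G s → #s = m → φ (xs s) ∈ L)
    (hz : z ∈ Ch G m) : φ z ∈ L :=
  (Submodule.span_le (p := L.comap φ)).2 (by rintro _ ⟨s, a, b, rfl⟩; exact h s a b) hz

theorem Nm.map_mem {M : Type} [AddCommGroup M] [Module (ZMod 2) M] {L : Submodule (ZMod 2) M}
    (φ : R (Finset V) →ₗ[ZMod 2] M) (h : ∀ s, Mt G s → #s = m → Ext G s → φ (xs s) ∈ L)
    (hz : z ∈ Nm G m) : φ z ∈ L :=
  (Submodule.span_le (p := L.comap φ)).2 (by rintro _ ⟨s, a, b, c, rfl⟩; exact h s a b c) hz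

theorem Ch.le {L : Submodule (ZMod 2) (R (Finset V))} (h : ∀ s, Mt G s → #s = m → xs s ∈ L)
    (hz : z ∈ Ch G m) : z ∈ L := Ch.map_mem LinearMap.id h hz

theorem Nm.le {L : Submodule (ZMod 2) (R (Finset V))}
    (h : ∀ s, Mt G s → #s = m → Ext G s → xs s ∈ L) (hz : z ∈ Nm G m) : z ∈ L :=
  Nm.map_mem LinearMap.id h hz

theorem Ch.mono (h : G ⊆ H) (hz : z ∈ Ch G m) : z ∈ Ch H m :=
  Ch.le (fun _ a b => xs_mem (a.mono h) b) hz

theorem Nm.ch (hz : z ∈ Nm G m) : z ∈ Ch G m := Nm.le (fun _ a b _ => xs_mem a b) hz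

theorem mem_Bd : z ∈ Bd G m ↔ ∃ b ∈ Ch G (m + 1), D b = z := Submodule.mem_map

theorem Bd.mono (h : G ⊆ H) (hz : z ∈ Bd G m) : z ∈ Bd H m := by
  obtain ⟨b, hb, rfl⟩ := mem_Bd.1 hz
  exact mem_Bd.2 ⟨b, Ch.mono h hb, rfl⟩

theorem one_mem : (1 : R (Finset V)) ∈ Ch G 0 := xs_mem (s := ∅) mt_empty rfl

theorem D_mem (hz : z ∈ Ch G (m + 1)) : D z ∈ Ch G m :=
  Ch.map_mem (D : Derivation (ZMod 2) (R (Finset V)) _).toLinearMap (fun s a b => by
    change D (xs s) ∈ _
    rw [D_xs]
    exact Submodule.sum_mem _ fun e he =>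
      xs_mem (a.sub (erase_subset _ _)) (by rw [card_erase_of_mem he]; omega)) hz

theorem D_zero (hz : z ∈ Ch G 0) : D z = 0 :=
  Ch.map_mem (L := ⊥) (D : Derivation (ZMod 2) (R (Finset V)) _).toLinearMap (fun s _ b => by
    rw [card_eq_zero.1 b]; simp) hz

theorem Mt.link (h : Mt G s) (hf : f ∈ s) : Mt (del f G) (s.erase f) :=
  (h.sub (erase_subset _ _)).of_sub fun e he =>
    mem_del.2 ⟨h.1 (mem_of_mem_erase he),
      h.2 f hf e (mem_of_mem_erase he) (ne_of_mem_erase he).symm⟩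

theorem pd_mem (f : Finset V) (hz : z ∈ Ch G (m + 1)) : pderiv f z ∈ Ch (del f G) m :=
  Ch.map_mem (pderiv f : Derivation (ZMod 2) (R (Finset V)) _).toLinearMap (fun s a b => by
    change pderiv f (xs s) ∈ _
    by_cases h : f ∈ s
    · rw [pd_xs h]; exact xs_mem (a.link h) (by rw [card_erase_of_mem h]; omega)
    · rw [pd_xs_not h]; exact Submodule.zero_mem _) hz

theorem pd_memN (f : Finset V) (hz : z ∈ Nm G (m + 1)) : pderiv f z ∈ Nm (del f G) m :=
  Nm.map_mem (pderiv f : Derivation (ZMod 2) (R (Finset V)) _).toLinearMap (fun s a b c => by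
    change pderiv f (xs s) ∈ _
    by_cases h : f ∈ s
    · rw [pd_xs h]
      obtain ⟨g, g1, g2⟩ := c
      exact xs_memN (a.link h) (by rw [card_erase_of_mem h]; omega)
        ⟨g, mem_del.2 ⟨g1, (g2 f h).symm⟩, fun e he => g2 e (mem_of_mem_erase he)⟩
    · rw [pd_xs_not h]; exact Submodule.zero_mem _) hz

theorem pd_not (hf : f ∉ G) (hz : z ∈ Ch G m) : pderiv f z = 0 :=
  Ch.map_mem (L := ⊥) (pderiv f : Derivation (ZMod 2) (R (Finset V)) _).toLinearMap
    (fun s a _ => by
      change pderiv f (xs s) ∈ _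
      rw [pd_xs_not fun h => hf (a.1 h)]; exact Submodule.zero_mem _) hz

theorem Mt.insert (h : Mt (del f G) s) (hf : f ∈ G) : Mt G (insert f s) := by
  refine ⟨insert_subset hf (h.1.trans del_sub), fun e he g hg hn => ?_⟩
  rcases mem_insert.1 he with k | k <;> rcases mem_insert.1 hg with l | l
  · exact absurd (k.trans l.symm) hn
  · exact k ▸ (mem_del.1 (h.1 l)).2
  · exact l ▸ (mem_del.1 (h.1 k)).2.symm
  · exact h.2 e k g l hn

theorem X_mul_mem (hf : f ∈ G) (hne : f.Nonempty) (hz : z ∈ Ch (del f G) m) :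
    X f * z ∈ Ch G (m + 1) :=
  Ch.map_mem (LinearMap.mulLeft (ZMod 2) (X f : R (Finset V))) (fun s a b => by
    have : f ∉ s := fun h => hne.ne_empty (disjoint_self.1 (mem_del.1 (a.1 h)).2)
    change X f * xs s ∈ _
    rw [← xs_insert this]
    exact xs_mem (a.insert hf) (by rw [card_insert_of_notMem this, b])) hz

/-- the part of a chain without the edge `f` -/
theorem rest_mem (f : Finset V) (hz : z ∈ Ch G m) : z + X f * pderiv f z ∈ Ch (G.erase f) m :=
  Ch.map_mem (LinearMap.id + (LinearMap.mulLeft (ZMod 2) (X f : R (Finset V))) ∘ₗ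
    (pderiv f : Derivation (ZMod 2) (R (Finset V)) _).toLinearMap) (fun s a b => by
    change xs s + X f * pderiv f (xs s) ∈ _
    by_cases h : f ∈ s
    · rw [pd_xs h, ← xs_erase h, aa]; exact Submodule.zero_mem _
    · rw [pd_xs_not h, mul_zero, add_zero]
      exact xs_mem (a.of_sub fun e he => mem_erase.2 ⟨fun k => h (k ▸ he), a.1 he⟩) b) hz

/-- a cone -/
theorem cone (hf : f ∈ G) (hne : f.Nonempty) (h : ∀ g ∈ G, g ≠ f → Disjoint f g) : Ac G m := by
  intro z hz h0
  have h1 : z + X f * pderiv f z ∈ Ch (del f G) m :=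
    Ch.mono (fun g hg => mem_del.2 ⟨mem_of_mem_erase hg,
      h g (mem_of_mem_erase hg) (ne_of_mem_erase hg)⟩) (rest_mem f hz)
  refine mem_Bd.2 ⟨_, X_mul_mem hf hne h1, ?_⟩
  simp only [D_mul, map_add, D_X, h0, ← pd_D, map_zero]
  linear_combination (X f * pderiv f z) * two_z

theorem Bd.cyc (hz : z ∈ Bd G m) : D z = 0 := by
  obtain ⟨b, -, rfl⟩ := mem_Bd.1 hz
  exact DD b

theorem Bd.of_add {y : R (Finset V)} (h : z + y ∈ Bd G m) (hy : y ∈ Bd G m) : z ∈ Bd G m := by
  have := Submodule.add_mem _ h hy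
  rwa [add_assoc, aa, add_zero] at this

/-- remove from a cycle a set of edges through one vertex -/
theorem star {F : Gr V} {t : V} (hF : F ⊆ st G t) (hz : z ∈ Ch G (m + 1)) (h0 : D z = 0)
    (hb : ∀ f ∈ F, pderiv f z ∈ Bd (del f G) m) :
    ∃ y ∈ Ch (G \ F) (m + 1), D y = 0 ∧ z + y ∈ Bd G (m + 1) := by
  choose! b b1 b2 using fun f hf => mem_Bd.1 (hb f hf)
  have ht : ∀ f ∈ F, f ∈ G ∧ t ∈ f := fun f hf => mem_st.1 (hF hf)
  have h1 : z + ∑ f ∈ F, X f * pderiv f z ∈ Ch (G \ F) (m + 1) := by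
    have := Ch.map_mem (L := Ch (G \ F) (m + 1)) (LinearMap.id +
      ∑ f ∈ F, (LinearMap.mulLeft (ZMod 2) (X f : R (Finset V))) ∘ₗ
        (pderiv f : Derivation (ZMod 2) (R (Finset V)) _).toLinearMap) (fun s a c => ?_) hz
    · simpa [LinearMap.sum_apply] using this
    simp only [LinearMap.add_apply, LinearMap.sum_apply, LinearMap.id_apply, LinearMap.comp_apply,
      LinearMap.mulLeft_apply, Derivation.coeFn_coe]
    by_cases h : ∃ f ∈ F, f ∈ s
    · obtain ⟨f, f1, f2⟩ := h
      rw [sum_eq_single_of_mem f f1, pd_xs f2, ← xs_erase f2, aa]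
      · exact Submodule.zero_mem _
      · intro g g1 g2
        rw [pd_xs_not fun k => g2 (a.eq k f2 (ht g g1).2 (ht f f1).2), mul_zero]
    · push Not at h
      rw [sum_eq_zero fun f hf => by rw [pd_xs_not (h f hf), mul_zero], add_zero]
      exact xs_mem (a.of_sub fun e he => mem_sdiff.2 ⟨a.1 he, fun k => h e k he⟩) c
  have h2 : ∑ f ∈ F, b f ∈ Ch (G \ F) (m + 1) := Submodule.sum_mem _ fun f hf =>
    Ch.mono (fun g hg => mem_sdiff.2 ⟨del_sub hg, fun k =>
      disjoint_left.1 (mem_del.1 hg).2 (ht f hf).2 (ht g k).2⟩) (b1 f hf)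
  have h3 : z + (z + ∑ f ∈ F, X f * pderiv f z + ∑ f ∈ F, b f) ∈ Bd G (m + 1) := by
    refine mem_Bd.2 ⟨∑ f ∈ F, X f * b f, Submodule.sum_mem _ fun f hf =>
      X_mul_mem (ht f hf).1 ⟨t, (ht f hf).2⟩ (b1 f hf), ?_⟩
    rw [map_sum, ← add_assoc, ← add_assoc, aa, zero_add, ← sum_add_distrib]
    exact sum_congr rfl fun f hf => by rw [D_mul, b2 f hf, D_X, mul_one]
  refine ⟨_, Submodule.add_mem _ h1 h2, ?_, h3⟩
  have := Bd.cyc h3
  rwa [map_add, h0, zero_add] at this

end Chain

end Pool.Agent.P.MP_75e851_co.R3
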