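import Pool.Agent.P.MP_75e851_co.R3.Base

/-! The steps of the proof. -/

set_option autoImplicit false

namespace Pool.Agent.P.MP_75e851_co.R3

open Finset MvPolynomial

-- deps:
def S_HCH : Prop := ∀ (V : Type) [DecidableEq V] (ι : Type) [DecidableEq ι] (E : ι → Gr V)
  (n : ℕ), (∀ S : Finset ι, S.Nonempty → Ac (S.biUnion E) (#S - 1)) →
  ∃ c : Finset ι → R (Finset V), c ∅ = 1 ∧ ∀ S : Finset ι, #S ≤ n →
    c S ∈ Ch (S.biUnion E) #S ∧ D (c S) = ∑ i ∈ S, c (S.erase i)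

-- deps: HCH
def S_HALL : Prop := ∀ (V : Type) [DecidableEq V] (ι : Type) [Fintype ι] [DecidableEq ι]
  (E : ι → Gr V), (∀ i j, i ≠ j → Disjoint (E i) (E j)) →
  (∀ S : Finset ι, S.Nonempty → Ac (S.biUnion E) (#S - 1)) →
  ∃ f : ι → Finset V, (∀ i, f i ∈ E i) ∧ ∀ i j, i ≠ j → Disjoint (f i) (f j)

-- deps:
def S_CON : Prop := ∀ (V : Type) [DecidableEq V] (B : Gr V) (a : ℕ), (∀ i < a, Ac B i) →
  ∃ g : Gr V → R (Finset V), ∀ s, Mt B s → g s ∈ Ch B (#s + 1) ∧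
    (#s < a → D (g s) = xs s + ∑ e ∈ s, g (s.erase e)) ∧ (a ≤ #s → g s = 0)

-- deps: CON
def S_JOINA : Prop := ∀ (V : Type) [DecidableEq V] (B Y : Gr V) (a m : ℕ)
  (z : R (Finset V)), Disjoint B Y → (∀ e ∈ B, ∀ f ∈ Y, Disjoint e f) → (∀ i < a, Ac B i) →
  z ∈ Submodule.span (ZMod 2) {p | ∃ s, Mt (B ∪ Y) s ∧ #s = m ∧ #(s ∩ B) < a ∧ p = xs s} →
  D z = 0 → z ∈ Bd (B ∪ Y) m

-- deps: CON JOINA
def S_JOIN : Prop := ∀ (V : Type) [DecidableEq V] (B Y : Gr V) (a k m : ℕ), Disjoint B Y →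
  (∀ e ∈ B, ∀ f ∈ Y, Disjoint e f) → (∀ i < a, Ac B i) → (∀ j < k, Ac Y j) → m < a + k →
  Ac (B ∪ Y) m

-- deps:
def S_DIM : Prop := ∀ (V : Type) [DecidableEq V] (K M : Gr V), Sub3 K → Mt K M → ¬ Ext K M →
  #K ≤ 5 * #M ∧ (5 * #M ≤ #K → Dim K M)

-- deps:
def S_SDR : Prop := ∀ (V : Type) [DecidableEq V] (K M : Gr V) (U : Finset V), Cls K → Dim K M →
  M.Nonempty → #U ≤ 2 → Disjoint U (vs M) → ∃ x w, Sdr K M U x w

-- deps: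
def S_FLM : Prop := ∀ (V : Type) [DecidableEq V] (K M J : Gr V) (U : Finset V)
  (x w : Finset V → V), Mt K M → Sdr K M U x w → Disjoint U (vs M) → J ⊆ M →
  Mt (del U K) (Fl M J x w) ∧ #(Fl M J x w) = #M ∧
    xs (Fl M J x w) = (∏ m ∈ J, X ({x m, w m} : Finset V)) * ∏ m ∈ M \ J, X m

-- deps:
def S_FLIPA : Prop := ∀ (V : Type) [DecidableEq V] (K M J : Gr V) (U : Finset V)
  (x w : Finset V → V), Sub3 K → Dim K M → Sdr K M U x w → J ⊆ M → Dim K (Fl M J x w) →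
  ∃ (y : Finset V → V) (p : Finset V → Finset V), (∀ m ∈ J, y m ≠ x m ∧ m = {x m, y m}) ∧
    (∀ m ∈ J, p m ∈ J ∧ ({y m, w (p m)} : Finset V) ∈ K) ∧ Set.InjOn p (J : Set (Finset V)) ∧
    ∀ m ∈ J, ∀ n ∈ J, ∃ k ∈ J, k ≠ n ∧ ({y k, w m} : Finset V) ∈ K

-- deps: FLIPA FLM
def S_FLIP : Prop := ∀ (V : Type) [DecidableEq V] (K M J : Gr V) (U : Finset V)
  (x w : Finset V → V), Sub3 K → Dim K M → Sdr K M U x w → J ⊆ M → Dim K (Fl M J x w) →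
  ∃ x' w', Sdr K M U x' w' ∧ (∀ m ∈ M, m ∉ J → x' m = x m ∧ w' m = w m) ∧
    ∀ J' ⊆ M, Dim K (Fl M J' x' w') → Disjoint J J'

-- deps: SDR FLIP
def S_SAFE : Prop := ∀ (V : Type) [DecidableEq V] (K M : Gr V) (U : Finset V), Cls K → Dim K M →
  M.Nonempty → #U ≤ 2 → Disjoint U (vs M) →
  ∃ x w, Sdr K M U x w ∧ ∀ J ⊆ M, J.Nonempty → ¬ Dim K (Fl M J x w)

-- deps: DIM SAFE FLM
def S_Z : Prop := ∀ (V : Type) [DecidableEq V] (K M : Gr V) (U : Finset V), Cls K → Mt K M →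
  ¬ Ext K M → 5 * #M ≤ #K → #U ≤ 2 → Disjoint U (vs M) →
  ∃ z ∈ Ch (del U K) #M, D z = 0 ∧ z + xs M ∈ Nm K #M

-- deps: Z DIM
def S_PURGE : Prop := ∀ (V : Type) [DecidableEq V] (K H : Gr V) (n : ℕ)
  (L : Submodule (ZMod 2) (R (Finset V))) (y : R (Finset V)), Cls K → H ⊆ K → 5 * n ≤ #K →
  Tc K n → y ∈ Ch H n → D y = 0 →
  (∀ M, M ⊆ H → Dim K M → ∃ U : Finset V, #U ≤ 2 ∧ Disjoint U (vs M) ∧
    ∀ z ∈ Ch (del U K) n, D z = 0 → z ∈ L) → ∃ w ∈ L, y + w ∈ Bd K n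

-- deps:
def S_NOWIT : Prop := ∀ (V : Type) [DecidableEq V] (H : Gr V) (a c : V), Cls H → a ≠ c →
  #(st H a) ≤ 2 → #(st H c) ≤ 2 → (∀ W : Finset V, a ∈ W → c ∈ W → ¬ Wit H W) →
  ({a, c} : Finset V) ∉ H ∧ Cls (insert {a, c} H)

-- deps:
def S_XDIS : Prop := ∀ (V : Type) [DecidableEq V] (H : Gr V) (a a' c c' : V) (W W' : Finset V),
  Cls H → Mk H {a, a'} {c, c'} → a ≠ c → a' ≠ c' → a ∈ W → c ∈ W → a' ∈ W' → c' ∈ W' →
  Wit H W → Wit H W' → (∀ Z : Finset V, a ∈ Z → c ∈ Z → Wit H Z → #W ≤ #Z) →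
  (∀ Z : Finset V, a' ∈ Z → c' ∈ Z → Wit H Z → #W' ≤ #Z) → Disjoint W W'

-- deps:
def S_FOUR : Prop := ∀ (V : Type) [DecidableEq V] (H : Gr V) (a a' c c' : V)
  (W1 W2 W3 W4 : Finset V), Cls H → Mk H {a, a'} {c, c'} → a ∈ W1 → c ∈ W1 → a' ∈ W2 → c' ∈ W2 →
  a ∈ W3 → c' ∈ W3 → a' ∈ W4 → c ∈ W4 → Wit H W1 → Wit H W2 → Wit H W3 → Wit H W4 →
  Disjoint W1 W2 → Disjoint W3 W4 → False

-- deps: NOWIT XDIS FOUR
def S_PAIR : Prop := ∀ (V : Type) [DecidableEq V] (H : Gr V) (A C : Finset V), Cls H →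
  Mk H A C → ∃ a ∈ A, ∃ c ∈ C, a ≠ c ∧ ({a, c} : Finset V) ∉ H ∧ Cls (insert {a, c} H)

/-- a vertex `s` of degree two -/
structure Two {V : Type} [DecidableEq V] (G : Gr V) (s t u : V) : Prop where
  sub : Sub3 G
  ne : t ≠ u
  st : st G s = {{s, t}, {s, u}}

/-- the path `a t s u c` -/
structure Path {V : Type} [DecidableEq V] (G : Gr V) (s t u a c : V) : Prop
    extends Two G s t u where
  ta : ({t, a} : Finset V) ∈ G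
  uc : ({u, c} : Finset V) ∈ G
  as : a ≠ s
  au : a ≠ u
  cs : c ≠ s
  ct : c ≠ t
  ac : a ≠ c

/-- the chains whose product with the cherry at `s` bounds -/
noncomputable def Dead {V : Type} [DecidableEq V] (G : Gr V) (s t u : V) (m : ℕ) :
    Submodule (ZMod 2) (R (Finset V)) :=
  (Bd G (m + 1)).comap
    (LinearMap.mulLeft (ZMod 2) (X ({s, t} : Finset V) + X ({s, u} : Finset V) : R (Finset V)))

theorem mem_Dead {V : Type} [DecidableEq V] {G : Gr V} {s t u : V} {m : ℕ} {y : R (Finset V)} :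
    y ∈ Dead G s t u m ↔ (X ({s, t} : Finset V) + X ({s, u} : Finset V)) * y ∈ Bd G (m + 1) :=
  Iff.rfl

-- deps:
def S_RED : Prop := ∀ (V : Type) [DecidableEq V] (G : Gr V) (s t u : V) (m : ℕ)
  (z : R (Finset V)), Two G s t u → z ∈ Ch G (m + 1) → D z = 0 →
  (∀ f ∈ st G t, pderiv f z ∈ Bd (del f G) m) →
  (∀ y ∈ Ch (del {s, t, u} G) m, D y = 0 → y ∈ Dead G s t u m) → z ∈ Bd G (m + 1)

-- deps:
def S_DEAD : Prop := ∀ (V : Type) [DecidableEq V] (G : Gr V) (s t u : V) (m : ℕ),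
  (Two G s t u → ∀ y ∈ Bd (del {s, t, u} G) m, y ∈ Dead G s t u m) ∧
  ∀ a c, Path G s t u a c →
    (∀ y ∈ Ch (del {a, c} (del {s, t, u} G)) m, D y = 0 → y ∈ Dead G s t u m) ∧
    (({a, c} : Finset V) ∉ del {s, t, u} G → ∀ y ∈ Ch (del {s, t, u} G) m,
      y ∈ Bd (insert {a, c} (del {s, t, u} G)) m → y ∈ Dead G s t u m)

-- deps:
def S_FIVE : Prop := ∀ (V : Type) [DecidableEq V] (G : Gr V) (s t u : V), Cls G → Two G s t u →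
  #G = #(del {s, t, u} G) + #(st G t ∪ st G u) ∧
    (5 ≤ #(st G t ∪ st G u) → ∃ a c, Path G s t u a c) ∧
    ∀ a c, Path G s t u a c →
      #(st (del {s, t, u} G) a) ≤ 2 ∧ #(st (del {s, t, u} G) c) ≤ 2

-- deps:
def S_SIX : Prop := ∀ (V : Type) [DecidableEq V] (G : Gr V) (s t u : V), Cls G → Two G s t u →
  6 ≤ #(st G t ∪ st G u) → ∃ A C : Finset V, Mk (del {s, t, u} G) A C ∧
    ∀ a ∈ A, ∀ c ∈ C, a ≠ c → Path G s t u a c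

-- deps:
def S_PICK : Prop := ∀ (V : Type) [DecidableEq V] (H M : Gr V) (A C : Finset V) (a c : V),
  Mk H A C → a ∈ A → c ∈ C → a ≠ c → M ⊆ H → ({a, c} : Finset V) ∉ H →
  Dim (insert {a, c} H) M → ∃ a' ∈ A, ∃ c' ∈ C, a' ≠ c' ∧ a' ∉ vs M ∧ c' ∉ vs M ∧
    del {a', c'} (insert {a, c} H) ⊆ H

-- deps: DIM PURGE PAIR DEAD FIVE SIX PICK
def S_CHERRY : Prop := ∀ (V : Type) [DecidableEq V] (G : Gr V) (s t u : V) (m : ℕ), Cls G →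
  Two G s t u → 5 * (m + 1) ≤ #G → (∀ K : Gr V, Cls K → #K < #G → 5 * m ≤ #K → Tc K m) →
  ∀ y ∈ Ch (del {s, t, u} G) m, D y = 0 → y ∈ Dead G s t u m

-- deps: RED CHERRY
def S_T : Prop := ∀ (V : Type) [DecidableEq V] (G : Gr V) (m : ℕ), Cls G → 5 * m ≤ #G → Tc G m

-- deps:
def S_BIPC : Prop := ∀ (V : Type) [DecidableEq V] (G : Gr V), Sub3 G → Bip G →
  (∀ W : Finset V, W.Nonempty → 2 * ein G W < 3 * #W) → Cls G

-- deps: BIPC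
def S_DEC : Prop := ∀ (V : Type) [DecidableEq V] (G : Gr V), Sub3 G → Bip G → ¬ Cls G →
  ∃ B Y : Gr V, G = B ∪ Y ∧ Disjoint B Y ∧ (∀ e ∈ B, ∀ f ∈ Y, Disjoint e f) ∧ B.Nonempty ∧
    ∀ f ∈ B, Cls (B.erase f)

-- deps: DIM PURGE T
def S_CUB : Prop := ∀ (V : Type) [DecidableEq V] (B : Gr V) (f : Finset V) (m : ℕ), Sub3 B →
  f ∈ B → Cls (B.erase f) → 5 * m < #B → Ac B m

-- deps: DIM T DEC CUB JOIN
def S_A : Prop := ∀ (V : Type) [DecidableEq V] (G : Gr V) (m : ℕ), Sub3 G → Bip G →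
  5 * m < #G → Ac G m

end Pool.Agent.P.MP_75e851_co.R3
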