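import Pool.Agent.P.MP_75e851_co.R3.Iface

/-! Step HCH. -/

set_option autoImplicit false
set_option linter.unusedSectionVars false

namespace Pool.Agent.P.MP_75e851_co.R3

open Finset MvPolynomial

theorem p_HCH : S_HCH := by
  intro V _ ι _ E n hA
  induction n with
  | zero =>
    refine ⟨fun _ => 1, rfl, fun S hS => ?_⟩
    obtain rfl : S = ∅ := card_eq_zero.1 (by omega)
    exact ⟨one_mem, by simp⟩
  | succ n ih =>
    obtain ⟨c, c0, hc⟩ := ih
    have key : ∀ S : Finset ι, #S = n + 1 →
        ∃ b ∈ Ch (S.biUnion E) (n + 1), D b = ∑ i ∈ S, c (S.erase i) := by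
      intro S hS
      have hne : S.Nonempty := card_pos.1 (by omega)
      have h1 := hA S hne
      rw [hS, Nat.add_sub_cancel] at h1
      have h2 : ∀ i ∈ S, #(S.erase i) = n := fun i hi => by
        rw [card_erase_of_mem hi]; omega
      refine mem_Bd.1 (h1 _ (Submodule.sum_mem _ fun i hi => ?_) ?_)
      · have := (hc (S.erase i) (h2 i hi).le).1
        rw [h2 i hi] at this
        exact Ch.mono (biUnion_subset_biUnion_of_subset_left _ (erase_subset _ _)) this
      · rw [map_sum, ← sym_sum S c]
        exact sum_congr rfl fun i hi => (hc (S.erase i) (h2 i hi).le).2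
    choose! b b1 b2 using key
    refine ⟨fun S => if #S = n + 1 then b S else c S, by simpa using c0, fun S hS => ?_⟩
    have h3 : ∑ i ∈ S, (if #(S.erase i) = n + 1 then b (S.erase i) else c (S.erase i)) =
        ∑ i ∈ S, c (S.erase i) :=
      sum_congr rfl fun i hi => if_neg (by
        have := card_pos.2 ⟨i, hi⟩
        rw [card_erase_of_mem hi]; omega)
    dsimp only
    rw [h3]
    by_cases h : #S = n + 1
    · rw [if_pos h, h]
      exact ⟨b1 S h, b2 S h⟩
    · rw [if_neg h]
      exact hc S (by omega)

end Pool.Agent.P.MP_75e851_co.R3
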