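import Pool.Agent.P.MP_75e851_co.R3.Iface

/-! Step PICK. -/

set_option autoImplicit false
set_option linter.unusedSectionVars false

namespace Pool.Agent.P.MP_75e851_co.R3

open Finset MvPolynomial

namespace PICKx

variable {V : Type} [DecidableEq V]

theorem out {H M : Gr V} {e : Finset V} {v : V} (hD : Dim (insert e H) M) (hv : v ∉ e)
    (h2 : #(st H v) ≤ 2) : v ∉ vs M := by
  intro hM
  have h3 := hD.deg v hM
  have : st (insert e H) v = st H v := by
    ext g
    simp only [mem_st, mem_insert]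
    constructor
    · rintro ⟨rfl | h, h'⟩
      · exact absurd h' hv
      · exact ⟨h, h'⟩
    · rintro ⟨h, h'⟩
      exact ⟨Or.inr h, h'⟩
  rw [this] at h3
  omega

theorem dl {H : Gr V} {e U : Finset V} {v : V} (h1 : v ∈ U) (h2 : v ∈ e) :
    del U (insert e H) ⊆ H := by
  intro g hg
  rw [mem_del, mem_insert] at hg
  rcases hg with ⟨rfl | h, h'⟩
  · exact absurd h2 (disjoint_left.1 h' h1)
  · exact h

theorem side {H M : Gr V} {A C : Finset V} {a c : V} (cA : #A = 2) (cC : #C = 2)
    (deg : ∀ v, #(st H v) + (if v ∈ A then 1 else 0) + (if v ∈ C then 1 else 0) ≤ 3)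
    (ha : a ∈ A) (hc : c ∈ C) (hD : Dim (insert {a, c} H) M) (h1 : a ∈ vs M) (h2 : c ∉ vs M) :
    ∃ a' ∈ A, ∃ c' ∈ C, a' ≠ c' ∧ a' ∉ vs M ∧ c' ∉ vs M ∧
      del {a', c'} (insert {a, c} H) ⊆ H := by
  have h3 := hD.deg a h1
  have h4 : st (insert {a, c} H) a ⊆ insert {a, c} (st H a) := by
    intro g hg
    rw [mem_st, mem_insert] at hg
    rw [mem_insert, mem_st]
    rcases hg with ⟨h | h, h'⟩
    · exact Or.inl h
    · exact Or.inr ⟨h, h'⟩
  have h5 := (card_le_card h4).trans (card_insert_le _ _)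
  have haC : a ∉ C := by
    intro h
    have := deg a
    rw [if_pos ha, if_pos h] at this
    omega
  obtain ⟨a2, ha2, hA⟩ := other cA ha
  have ha2A : a2 ∈ A := by rw [hA]; simp
  by_cases h : a2 = c
  · obtain ⟨c2, hc2, hC⟩ := other cC hc
    have hc2C : c2 ∈ C := by rw [hC]; simp
    have hc2a : c2 ≠ a := fun k => haC (k ▸ hc2C)
    refine ⟨c, h ▸ ha2A, c2, hc2C, hc2.symm, h2, out hD (by simp [hc2, hc2a]) ?_,
      dl (v := c) (by simp) (by simp)⟩
    have := deg c2
    rw [if_pos hc2C] at this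
    omega
  · refine ⟨a2, ha2A, c, hc, h, out hD (by simp [ha2, h]) ?_, h2,
      dl (v := c) (by simp) (by simp)⟩
    have := deg a2
    rw [if_pos ha2A] at this
    omega

end PICKx

theorem p_PICK :
    S_PICK := by
  intro V _ H M A C a c hK ha hc hac hM he hD
  obtain ⟨x, w, hxw, hx, hw⟩ := hD.one {a, c} (mem_insert_self _ _) fun h => he (hM h)
  have hxa : x ∈ ({a, c} : Finset V) := by rw [hxw]; simp
  have hwa : w ∈ ({a, c} : Finset V) := by rw [hxw]; simp
  have hxw' : x ≠ w := fun h => hw (h ▸ hx)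
  simp only [mem_insert, mem_singleton] at hxa hwa
  rcases hxa with rfl | rfl
  · rcases hwa with rfl | rfl
    · exact absurd rfl hxw'
    · exact PICKx.side hK.cA hK.cC hK.deg ha hc hD hx hw
  · rcases hwa with rfl | rfl
    · rw [pair_comm] at hD
      obtain ⟨c', hc', a', ha', h1, h2, h3, h4⟩ :=
        PICKx.side hK.cC hK.cA (fun v => by have := hK.deg v; omega) hc ha hD hx hw
      refine ⟨a', ha', c', hc', h1.symm, h3, h2, ?_⟩
      rw [pair_comm a' c', pair_comm w x]
      exact h4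
    · exact absurd rfl hxw'

end Pool.Agent.P.MP_75e851_co.R3
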