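import Pool.Agent.P.MP_75e851_co.R3.Iface

/-! Step SAFE. -/

set_option autoImplicit false
set_option linter.unusedSectionVars false

namespace Pool.Agent.P.MP_75e851_co.R3

open Finset MvPolynomial

namespace SAFEx

open Classical in
/-- the edges of `M` that lie in a set whose replacement is again dominating and induced -/
noncomputable def Bad {V : Type} [DecidableEq V] (K M : Gr V) (x w : Finset V → V) : Gr V :=
  M.filter fun m => ∃ J ⊆ M, m ∈ J ∧ Dim K (Fl M J x w)

theorem mem_Bad {V : Type} [DecidableEq V] {K M : Gr V} {x w : Finset V → V} {m : Finset V} :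
    m ∈ Bad K M x w ↔ m ∈ M ∧ ∃ J ⊆ M, m ∈ J ∧ Dim K (Fl M J x w) := by
  simp [Bad]

end SAFEx

open SAFEx in
theorem p_SAFE (hSDR : S_SDR) (hFLIP : S_FLIP) :
    S_SAFE := by
  intro V _ K M U hK hM hne hU hd
  have key : ∀ n (x w : Finset V → V), Sdr K M U x w → #(Bad K M x w) = n →
      ∃ x w, Sdr K M U x w ∧ ∀ J ⊆ M, J.Nonempty → ¬ Dim K (Fl M J x w) := by
    intro n
    induction n using Nat.strong_induction_on with
    | _ n ih =>
      intro x w h hn
      by_cases b : ∀ J ⊆ M, J.Nonempty → ¬ Dim K (Fl M J x w)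
      · exact ⟨x, w, h, b⟩
      push Not at b
      obtain ⟨J, j1, ⟨m, j2⟩, j3⟩ := b
      obtain ⟨x', w', a1, a2, a3⟩ := hFLIP V K M J U x w hK.toSub3 hM h j1 j3
      refine ih _ (hn ▸ card_lt_card ⟨fun e he => ?_, fun k => ?_⟩) x' w' a1 rfl
      · obtain ⟨e1, J', e2, e3, e4⟩ := mem_Bad.1 he
        refine mem_Bad.2 ⟨e1, J', e2, e3, ?_⟩
        have : Fl M J' x w = Fl M J' x' w' := by
          unfold Fl
          congr 1
          refine image_congr fun f hf => ?_
          have := a2 f (e2 hf) fun k => disjoint_left.1 (a3 J' e2 e4) k hf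
          rw [this.1, this.2]
        rwa [this]
      · obtain ⟨-, J', e2, e3, e4⟩ := mem_Bad.1 (k (mem_Bad.2 ⟨j1 j2, J, j1, j2, j3⟩))
        exact disjoint_left.1 (a3 J' e2 e4) j2 e3
  obtain ⟨x, w, h⟩ := hSDR V K M U hK hM hne hU hd
  exact key _ x w h rfl

end Pool.Agent.P.MP_75e851_co.R3
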